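import Pool.Agent.Work.MP_a7dd25_pr.KacRice

open MeasureTheory Set
open scoped NNReal ENNReal

namespace Pool.Agent.Work.MP_a7dd25_pr

lemma MM_hasDerivAt (j N : ℕ) (v : Fin (N + 1) → ℝ) (t : ℝ) :
    HasDerivAt (fun t => MM j N v t) (-2 * MM (j + 1) N v t) t := by
  unfold MM
  rw [Finset.mul_sum]
  apply HasDerivAt.fun_sum
  intro k _
  have h1 : HasDerivAt (fun t : ℝ => -(2 * ((k : ℕ) : ℝ) * t)) (-(2 * ((k : ℕ) : ℝ))) t := by
    have := ((hasDerivAt_id' t).const_mul (2 * ((k : ℕ) : ℝ))).fun_neg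
    simpa using this
  have h2 := ((h1.exp).const_mul (v k)).const_mul (((k : ℕ) : ℝ) ^ j)
  have e : -2 * (((k : ℕ) : ℝ) ^ (j + 1) * (v k * Real.exp (-(2 * (k : ℕ) * t)))) =
      ((k : ℕ) : ℝ) ^ j * (v k * (Real.exp (-(2 * (k : ℕ) * t)) * -(2 * ((k : ℕ) : ℝ)))) := by ring
  rw [e]
  exact h2

lemma MM_continuous (j N : ℕ) (v : Fin (N + 1) → ℝ) : Continuous (fun t => MM j N v t) := by
  unfold MM; fun_prop

lemma disc_le (N : ℕ) (v : Fin (N + 1) → ℝ) (t c : ℝ) :
    MM 0 N v t * MM 2 N v t - MM 1 N v t ^ 2 ≤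
      MM 0 N v t * ∑ k : Fin (N + 1), (v k * Real.exp (-(2 * (k : ℕ) * t))) * (((k : ℕ) : ℝ) - c) ^ 2 := by
  have h : ∑ k : Fin (N + 1), (v k * Real.exp (-(2 * (k : ℕ) * t))) * (((k : ℕ) : ℝ) - c) ^ 2 =
      MM 2 N v t - 2 * c * MM 1 N v t + c ^ 2 * MM 0 N v t := by
    unfold MM
    rw [Finset.mul_sum, Finset.mul_sum, ← Finset.sum_sub_distrib, ← Finset.sum_add_distrib]
    refine Finset.sum_congr rfl fun k _ => ?_
    ring
  rw [h]
  nlinarith [sq_nonneg (c * MM 0 N v t - MM 1 N v t)]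

lemma disc_nonneg (N : ℕ) (v : Fin (N + 1) → ℝ) (hv : ∀ i, 0 < v i) (t : ℝ) :
    0 ≤ MM 0 N v t * MM 2 N v t - MM 1 N v t ^ 2 := by
  have h0 := MM0_pos N v hv t
  have h : 0 ≤ ∑ k : Fin (N + 1), (v k * Real.exp (-(2 * (k : ℕ) * t))) *
      (((k : ℕ) : ℝ) - MM 1 N v t / MM 0 N v t) ^ 2 := by
    apply Finset.sum_nonneg
    intro k _
    have := hv k
    positivity
  have h2 : ∑ k : Fin (N + 1), (v k * Real.exp (-(2 * (k : ℕ) * t))) *
      (((k : ℕ) : ℝ) - MM 1 N v t / MM 0 N v t) ^ 2 =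
      MM 2 N v t - 2 * (MM 1 N v t / MM 0 N v t) * MM 1 N v t + (MM 1 N v t / MM 0 N v t) ^ 2 * MM 0 N v t := by
    unfold MM
    rw [Finset.mul_sum, Finset.mul_sum, ← Finset.sum_sub_distrib, ← Finset.sum_add_distrib]
    refine Finset.sum_congr rfl fun k _ => ?_
    ring
  rw [h2] at h
  have h3 : MM 2 N v t - 2 * (MM 1 N v t / MM 0 N v t) * MM 1 N v t + (MM 1 N v t / MM 0 N v t) ^ 2 * MM 0 N v t =
      (MM 0 N v t * MM 2 N v t - MM 1 N v t ^ 2) / MM 0 N v t := by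
    field_simp
    ring
  rw [h3] at h
  have := mul_nonneg h h0.le
  rwa [div_mul_cancel₀ _ h0.ne'] at this

lemma sqrt_sum_le {ι : Type*} (s : Finset ι) (f : ι → ℝ) (hf : ∀ i ∈ s, 0 ≤ f i) :
    Real.sqrt (∑ i ∈ s, f i) ≤ ∑ i ∈ s, Real.sqrt (f i) := by
  classical
  induction s using Finset.induction_on with
  | empty => simp
  | insert a s ha ih =>
    rw [Finset.sum_insert ha, Finset.sum_insert ha]
    have h1 := ih fun i hi => hf i (Finset.mem_insert_of_mem hi)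
    have h2 : 0 ≤ f a := hf a (Finset.mem_insert_self a s)
    have h3 : 0 ≤ ∑ i ∈ s, f i := Finset.sum_nonneg fun i hi => hf i (Finset.mem_insert_of_mem hi)
    have h4 : Real.sqrt (f a + ∑ i ∈ s, f i) ≤ Real.sqrt (f a) + Real.sqrt (∑ i ∈ s, f i) := by
      rw [Real.sqrt_le_left (by positivity), add_sq, Real.sq_sqrt h2, Real.sq_sqrt h3]
      have := mul_nonneg (Real.sqrt_nonneg (f a)) (Real.sqrt_nonneg (∑ i ∈ s, f i))
      nlinarith
    linarith

/-- Basic bound of the standard deviation by an expansion around a given index `T`. -/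
lemma sdv_le (N : ℕ) (v : Fin (N + 1) → ℝ) (hv : ∀ i, 0 < v i) (T : Fin (N + 1)) (t : ℝ) :
    sdv N v t ≤ ∑ k : Fin (N + 1), |((k : ℕ) : ℝ) - (T : ℕ)| * (Real.sqrt (v k / v T) *
      Real.exp (-((((k : ℕ) : ℝ) - (T : ℕ)) * t))) := by
  have h0 := MM0_pos N v hv t
  set w : Fin (N + 1) → ℝ := fun k => v k * Real.exp (-(2 * (k : ℕ) * t)) with hw
  have hwpos : ∀ k, 0 < w k := fun k => mul_pos (hv k) (Real.exp_pos _)
  have hwT : w T ≤ MM 0 N v t := by
    unfold MM
    simp only [pow_zero, one_mul]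
    exact Finset.single_le_sum (f := w) (fun i _ => (hwpos i).le) (Finset.mem_univ T)
  have h1 : sdv N v t ≤ Real.sqrt ((∑ k, w k * (((k : ℕ) : ℝ) - (T : ℕ)) ^ 2) / MM 0 N v t) := by
    unfold sdv
    have h2 := disc_le N v t (T : ℕ)
    have h3 : MM 0 N v t = Real.sqrt (MM 0 N v t ^ 2) := (Real.sqrt_sq h0.le).symm
    conv_lhs => rw [h3, ← Real.sqrt_sq h0.le]
    rw [← Real.sqrt_div']
    · apply Real.sqrt_le_sqrt
      rw [Real.sqrt_sq (by positivity), Real.sqrt_sq (by positivity), div_le_div_iff₀ (by positivity) h0]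
      nlinarith
    · positivity
  have h2 : (∑ k, w k * (((k : ℕ) : ℝ) - (T : ℕ)) ^ 2) / MM 0 N v t ≤
      ∑ k, (w k / w T) * (((k : ℕ) : ℝ) - (T : ℕ)) ^ 2 := by
    have h4 : ∑ k, (w k / w T) * (((k : ℕ) : ℝ) - (T : ℕ)) ^ 2 =
        (∑ k, w k * (((k : ℕ) : ℝ) - (T : ℕ)) ^ 2) / w T := by
      rw [Finset.sum_div]
      refine Finset.sum_congr rfl fun k _ => ?_
      ring
    rw [h4]
    apply div_le_div_of_nonneg_left _ (hwpos T) hwT
    apply Finset.sum_nonneg
    intro k _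
    have := hwpos k
    positivity
  calc sdv N v t ≤ _ := h1
    _ ≤ Real.sqrt (∑ k, (w k / w T) * (((k : ℕ) : ℝ) - (T : ℕ)) ^ 2) := Real.sqrt_le_sqrt h2
    _ ≤ ∑ k, Real.sqrt ((w k / w T) * (((k : ℕ) : ℝ) - (T : ℕ)) ^ 2) := by
        apply sqrt_sum_le
        intro k _
        have := hwpos k
        have := hwpos T
        positivity
    _ = _ := by
        refine Finset.sum_congr rfl fun k _ => ?_
        have e1 : w k / w T = (v k / v T) * (Real.exp (-((((k : ℕ) : ℝ) - (T : ℕ)) * t))) ^ 2 := by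
          simp only [hw]
          rw [← Real.exp_nat_mul, mul_div_mul_comm, ← Real.exp_sub]
          congr 2
          push_cast
          ring
        rw [e1, Real.sqrt_mul (by have := hv k; have := hv T; positivity), Real.sqrt_sq_eq_abs,
          Real.sqrt_mul (by have := hv k; have := hv T; positivity), Real.sqrt_sq (Real.exp_pos _).le]
        ring

lemma sdv_nonneg (N : ℕ) (v : Fin (N + 1) → ℝ) (hv : ∀ i, 0 < v i) (t : ℝ) : 0 ≤ sdv N v t :=
  div_nonneg (Real.sqrt_nonneg _) (MM0_pos N v hv t).le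

lemma sdv_le_N (N : ℕ) (v : Fin (N + 1) → ℝ) (hv : ∀ i, 0 < v i) (t : ℝ) : sdv N v t ≤ N := by
  have h0 := MM0_pos N v hv t
  unfold sdv
  rw [div_le_iff₀ h0, Real.sqrt_le_left (by positivity)]
  have h2 := disc_le N v t 0
  have h3 : ∑ k : Fin (N + 1), (v k * Real.exp (-(2 * (k : ℕ) * t))) * (((k : ℕ) : ℝ) - 0) ^ 2 ≤
      (N : ℝ) ^ 2 * MM 0 N v t := by
    unfold MM
    rw [Finset.mul_sum]
    apply Finset.sum_le_sum
    intro k _
    have hk : ((k : ℕ) : ℝ) ≤ N := by exact_mod_cast Nat.lt_succ_iff.mp k.2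
    have h5 : (((k : ℕ) : ℝ) - 0) ^ 2 ≤ (N : ℝ) ^ 2 := by
      rw [sub_zero]
      exact pow_le_pow_left₀ (by positivity) hk 2
    have := hv k
    have h6 : 0 < v k * Real.exp (-(2 * (k : ℕ) * t)) := by positivity
    rw [pow_zero, one_mul]
    nlinarith
  nlinarith

lemma MM1_le (N : ℕ) (v : Fin (N + 1) → ℝ) (hv : ∀ i, 0 < v i) (t : ℝ) :
    MM 1 N v t ≤ N * MM 0 N v t := by
  unfold MM
  rw [Finset.mul_sum]
  apply Finset.sum_le_sum
  intro k _
  have hk : ((k : ℕ) : ℝ) ≤ N := by exact_mod_cast Nat.lt_succ_iff.mp k.2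
  have := hv k
  have h6 : 0 < v k * Real.exp (-(2 * (k : ℕ) * t)) := by positivity
  rw [pow_zero, one_mul, pow_one]
  exact mul_le_mul_of_nonneg_right hk h6.le

lemma MM1_nonneg (N : ℕ) (v : Fin (N + 1) → ℝ) (hv : ∀ i, 0 < v i) (t : ℝ) :
    0 ≤ MM 1 N v t := by
  unfold MM
  apply Finset.sum_nonneg
  intro k _
  have := hv k
  positivity

/-- antiderivative of `t * Var` -/
noncomputable def GG (N : ℕ) (v : Fin (N + 1) → ℝ) (t : ℝ) : ℝ :=
  -(1 / 2) * t * (MM 1 N v t / MM 0 N v t) - (1 / 4) * Real.log (MM 0 N v t)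

lemma GG_hasDerivAt (N : ℕ) (v : Fin (N + 1) → ℝ) (hv : ∀ i, 0 < v i) (t : ℝ) :
    HasDerivAt (fun t => GG N v t)
      (t * ((MM 0 N v t * MM 2 N v t - MM 1 N v t ^ 2) / MM 0 N v t ^ 2)) t := by
  have h0 := MM0_pos N v hv t
  have d0 := MM_hasDerivAt 0 N v t
  have d1 := MM_hasDerivAt 1 N v t
  have dm := d1.div d0 h0.ne'
  have dl := d0.log h0.ne'
  have h := ((((hasDerivAt_id' t).const_mul (-(1 / 2 : ℝ))).mul dm)).sub (dl.const_mul (1 / 4))
  refine h.congr_deriv ?_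
  simp only [Pi.div_apply]
  field_simp
  ring

/-- The AM-GM upper bound on an interval. -/
lemma part2 (N : ℕ) (v : Fin (N + 1) → ℝ) (hv : ∀ i, 0 < v i) (a b : ℝ) (ha : 0 < a) (hab : a ≤ b) :
    0 ≤ GG N v b - GG N v a + (1 / 4) * (Real.log b - Real.log a) ∧
    ∫⁻ t in Ioc a b, ENNReal.ofReal (sdv N v t) ≤
      ENNReal.ofReal (GG N v b - GG N v a + (1 / 4) * (Real.log b - Real.log a)) := by
  set g : ℝ → ℝ := fun t => t * ((MM 0 N v t * MM 2 N v t - MM 1 N v t ^ 2) / MM 0 N v t ^ 2) + (1 / 4) * t⁻¹ with hg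
  have hgcont : ContinuousOn g (uIcc a b) := by
    rw [uIcc_of_le hab]
    have c0 := MM_continuous 0 N v
    have c1 := MM_continuous 1 N v
    have c2 := MM_continuous 2 N v
    intro t ht
    have htpos : 0 < t := lt_of_lt_of_le ha ht.1
    have h0 := MM0_pos N v hv t
    apply ContinuousAt.continuousWithinAt
    apply ContinuousAt.add
    · apply continuousAt_id.mul
      apply ContinuousAt.div
      · fun_prop
      · fun_prop
      · positivity
    · apply ContinuousAt.mul continuousAt_const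
      exact continuousAt_inv₀ htpos.ne'
  have hint : IntervalIntegrable g volume a b := hgcont.intervalIntegrable
  have hFTC : ∫ t in a..b, g t = GG N v b - GG N v a + (1 / 4) * (Real.log b - Real.log a) := by
    have hd : ∀ t ∈ uIcc a b, HasDerivAt (fun t => GG N v t + (1 / 4) * Real.log t) (g t) t := by
      intro t ht
      rw [uIcc_of_le hab] at ht
      have htpos : 0 < t := lt_of_lt_of_le ha ht.1
      exact (GG_hasDerivAt N v hv t).add ((Real.hasDerivAt_log htpos.ne').const_mul (1 / 4))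
    rw [intervalIntegral.integral_eq_sub_of_hasDerivAt hd hint]
    ring
  have hgnonneg : ∀ t ∈ Ioc a b, 0 ≤ g t := by
    intro t ht
    have htpos : 0 < t := lt_trans ha ht.1
    have h1 := disc_nonneg N v hv t
    simp only [hg]
    positivity
  have hle : ∀ t ∈ Ioc a b, sdv N v t ≤ g t := by
    intro t ht
    have htpos : 0 < t := lt_trans ha ht.1
    have h0 := MM0_pos N v hv t
    have h1 := disc_nonneg N v hv t
    have h2 : sdv N v t ^ 2 = (MM 0 N v t * MM 2 N v t - MM 1 N v t ^ 2) / MM 0 N v t ^ 2 := by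
      rw [sdv, div_pow, Real.sq_sqrt h1]
    simp only [hg]
    rw [← h2]
    have h3 : t * sdv N v t ^ 2 + (1 / 4) * t⁻¹ - sdv N v t = t⁻¹ * (t * sdv N v t - 1 / 2) ^ 2 := by
      field_simp
      ring
    have h4 : 0 ≤ t⁻¹ * (t * sdv N v t - 1 / 2) ^ 2 := by positivity
    linarith
  rw [← hFTC, intervalIntegral.integral_of_le hab]
  have hint' : IntegrableOn g (Ioc a b) := by
    rw [intervalIntegrable_iff_integrableOn_Ioc_of_le hab] at hint
    exact hint
  constructor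
  · exact setIntegral_nonneg measurableSet_Ioc hgnonneg
  rw [ofReal_integral_eq_lintegral_ofReal hint' ?_]
  · apply setLIntegral_mono' measurableSet_Ioc
    intro t ht
    exact ENNReal.ofReal_le_ofReal (hle t ht)
  · rw [Filter.EventuallyLE, ae_restrict_iff' measurableSet_Ioc]
    exact Filter.Eventually.of_forall hgnonneg

lemma part1 (N : ℕ) (hN : 1 ≤ N) (v : Fin (N + 1) → ℝ) (hv : ∀ i, 0 < v i) :
    ∫⁻ t in Ioc 0 (1 / (N : ℝ)), ENNReal.ofReal (sdv N v t) ≤ 1 := by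
  calc ∫⁻ t in Ioc 0 (1 / (N : ℝ)), ENNReal.ofReal (sdv N v t)
      ≤ ∫⁻ t in Ioc 0 (1 / (N : ℝ)), (N : ℝ≥0∞) := by
        apply setLIntegral_mono' measurableSet_Ioc
        intro t _
        rw [← ENNReal.ofReal_natCast]
        exact ENNReal.ofReal_le_ofReal (sdv_le_N N v hv t)
    _ = 1 := by
        rw [setLIntegral_const, Real.volume_Ioc, ← ENNReal.ofReal_natCast, ← ENNReal.ofReal_mul (by positivity)]
        have : (N : ℝ) * (1 / N - 0) = 1 := by
          have : (N : ℝ) ≠ 0 := by positivity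
          field_simp
          ring
        rw [this, ENNReal.ofReal_one]

end Pool.Agent.Work.MP_a7dd25_pr
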