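import Mathlib

open MeasureTheory Polynomial

namespace Pool.Agent.Work.MP_a7dd25_pr

/-- Points outside the finite set `Z` with exactly `k` points of `Z` to the left. -/
def piece (Z : Finset ℝ) (k : ℕ) : Set ℝ := {x | x ∉ Z ∧ (Z.filter (· < x)).card = k}

lemma piece_measurable (Z : Finset ℝ) (k : ℕ) : MeasurableSet (piece Z k) := by
  have h1 : MeasurableSet {x : ℝ | x ∉ Z} := by
    have : {x : ℝ | x ∉ Z} = ((Z : Set ℝ))ᶜ := by ext; simp
    rw [this]; exact Z.measurableSet.compl
  have h2 : Measurable (fun x : ℝ => (Z.filter (· < x)).card) := by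
    have : (fun x : ℝ => (Z.filter (· < x)).card) = fun x => ∑ z ∈ Z, if z < x then 1 else 0 := by
      ext x; rw [Finset.card_filter]
    rw [this]
    exact Finset.measurable_sum _ fun z _ => Measurable.ite measurableSet_Ioi measurable_const measurable_const
  exact h1.inter (h2 (measurableSet_singleton k))

lemma piece_injOn (R : ℝ[X]) (Z : Finset ℝ) (hZ : ∀ x, R.derivative.eval x = 0 → x ∈ Z) (k : ℕ) :
    Set.InjOn (fun x => R.eval x) (piece Z k) := by
  have key : ∀ x y : ℝ, x ∈ piece Z k → y ∈ piece Z k → x < y → R.eval x ≠ R.eval y := by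
    intro x y hx hy hxy h
    obtain ⟨c, hc, hc'⟩ := exists_deriv_eq_zero (f := fun x => R.eval x) hxy
      R.continuous.continuousOn h
    rw [Polynomial.deriv] at hc'
    have hcZ := hZ c hc'
    have hsub : Z.filter (· < x) ⊂ Z.filter (· < y) := by
      rw [Finset.ssubset_iff_of_subset]
      · refine ⟨c, by simp [hcZ, hc.2], by simp [hc.1.le]⟩
      · intro z hz
        simp only [Finset.mem_filter] at hz ⊢
        exact ⟨hz.1, hz.2.trans hxy⟩
    have := Finset.card_lt_card hsub
    rw [hx.2, hy.2] at this
    exact lt_irrefl _ this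
  intro x hx y hy hxy
  rcases lt_trichotomy x y with h | h | h
  · exact absurd hxy (key x y hx hy h)
  · exact h
  · exact absurd hxy.symm (key y x hy hx h)

lemma sum_piece (Z : Finset ℝ) (x : ℝ) (hx : x ∉ Z) (c : ENNReal) :
    ∑ k ∈ Finset.range (Z.card + 1), (piece Z k).indicator (fun _ => c) x = c := by
  classical
  rw [Finset.sum_eq_single_of_mem ((Z.filter (· < x)).card)]
  · rw [Set.indicator_of_mem]; exact ⟨hx, rfl⟩
  · rw [Finset.mem_range]
    exact Nat.lt_succ_of_le (Finset.card_le_card (Finset.filter_subset _ _))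
  · intro b _ hb
    rw [Set.indicator_of_notMem]
    intro h; exact hb h.2.symm

/-- One-dimensional area formula for a polynomial. -/
theorem area_formula (R : ℝ[X]) (hR : R.derivative ≠ 0) (φ : ℝ → ENNReal) (hφ : Measurable φ) :
    ∫⁻ x, ENNReal.ofReal |R.derivative.eval x| * φ (R.eval x) =
      ∫⁻ y, φ y * (((R - C y).roots.card : ℕ) : ENNReal) := by
  classical
  set Z : Finset ℝ := R.derivative.roots.toFinset with hZdef
  have hZ : ∀ x, R.derivative.eval x = 0 → x ∈ Z := by
    intro x hx; rw [hZdef, Multiset.mem_toFinset, mem_roots hR]; exact hx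
  have hZ' : ∀ x, x ∈ Z → R.derivative.eval x = 0 := by
    intro x hx; rw [hZdef, Multiset.mem_toFinset, mem_roots hR] at hx; exact hx
  set f : ℝ → ENNReal := fun x => ENNReal.ofReal |R.derivative.eval x| * φ (R.eval x) with hf
  have hfm : Measurable f := by
    have h1 : Measurable fun x : ℝ => R.derivative.eval x := R.derivative.continuous.measurable
    have h2 : Measurable fun x : ℝ => R.eval x := R.continuous.measurable
    fun_prop
  have hZnull : ∀ᵐ x : ℝ, x ∉ Z := by
    have : (volume : Measure ℝ) (Z : Set ℝ) = 0 := Z.finite_toSet.measure_zero _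
    rw [ae_iff]; simpa using this
  have hRcont : Continuous fun x : ℝ => R.eval x := R.continuous
  have him : ∀ k, MeasurableSet ((fun x => R.eval x) '' piece Z k) := fun k =>
    (piece_measurable Z k).image_of_continuousOn_injOn hRcont.continuousOn (piece_injOn R Z hZ k)
  have step1 : ∫⁻ x, f x = ∑ k ∈ Finset.range (Z.card + 1), ∫⁻ x in piece Z k, f x := by
    have : ∀ᵐ x : ℝ, f x = ∑ k ∈ Finset.range (Z.card + 1), (piece Z k).indicator f x := by
      filter_upwards [hZnull] with x hx
      have := sum_piece Z x hx (f x)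
      rw [← this]
      refine Finset.sum_congr rfl fun k _ => ?_
      by_cases h : x ∈ piece Z k
      · rw [Set.indicator_of_mem h, Set.indicator_of_mem h]
      · rw [Set.indicator_of_notMem h, Set.indicator_of_notMem h]
    rw [lintegral_congr_ae this, lintegral_finsetSum]
    · refine Finset.sum_congr rfl fun k _ => ?_
      rw [lintegral_indicator (piece_measurable Z k)]
    · intro k _
      exact hfm.indicator (piece_measurable Z k)
  have step2 : ∀ k, ∫⁻ x in piece Z k, f x = ∫⁻ y in (fun x => R.eval x) '' piece Z k, φ y := by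
    intro k
    rw [lintegral_image_eq_lintegral_abs_deriv_mul (piece_measurable Z k)
      (f' := fun x => R.derivative.eval x) (fun x _ => (R.hasDerivAt x).hasDerivWithinAt)
      (piece_injOn R Z hZ k)]
  rw [step1]
  simp_rw [step2]
  have step3 : ∀ k, ∫⁻ y in (fun x => R.eval x) '' piece Z k, φ y =
      ∫⁻ y, ((fun x => R.eval x) '' piece Z k).indicator φ y := fun k => by
    rw [lintegral_indicator (him k)]
  simp_rw [step3]
  rw [← lintegral_finsetSum]
  swap
  · intro k _; exact hφ.indicator (him k)
  have hnull2 : ∀ᵐ y : ℝ, y ∉ (Z.image fun x => R.eval x) := by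
    have : (volume : Measure ℝ) ((Z.image fun x => R.eval x : Finset ℝ) : Set ℝ) = 0 :=
      (Finset.finite_toSet _).measure_zero _
    rw [ae_iff]
    convert this using 2
    ext y; simp
  apply lintegral_congr_ae
  filter_upwards [hnull2] with y hy
  have hne : R - C y ≠ 0 := by
    intro h
    apply hR
    have : derivative (R - C y) = 0 := by rw [h]; simp
    simpa using this
  have hroot : ∀ x, x ∈ (R - C y).roots ↔ R.eval x = y := by
    intro x
    rw [mem_roots hne, IsRoot.def, eval_sub, eval_C, sub_eq_zero]
  have hnodup : (R - C y).roots.Nodup := by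
    rw [Multiset.nodup_iff_count_le_one]
    intro x
    rw [count_roots]
    by_contra hcon
    push Not at hcon
    rw [one_lt_rootMultiplicity_iff_isRoot hne] at hcon
    apply hy
    rw [Finset.mem_image]
    refine ⟨x, hZ x ?_, ?_⟩
    · have := hcon.2
      simpa [IsRoot.def] using this
    · have := hcon.1
      rw [IsRoot.def, eval_sub, eval_C, sub_eq_zero] at this
      exact this
  have hcard : ((R - C y).roots.card : ENNReal) =
      ∑ k ∈ Finset.range (Z.card + 1), (((fun x => R.eval x) '' piece Z k).indicator (fun _ => (1 : ENNReal)) y) := by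
    rw [← Multiset.toFinset_card_of_nodup hnodup]
    have h1 : (((R - C y).roots.toFinset.card : ℕ) : ENNReal) =
        ∑ x ∈ (R - C y).roots.toFinset, ∑ k ∈ Finset.range (Z.card + 1),
          (piece Z k).indicator (fun _ => (1 : ENNReal)) x := by
      rw [Finset.card_eq_sum_ones, Nat.cast_sum]
      refine Finset.sum_congr rfl fun x hx => ?_
      rw [Multiset.mem_toFinset, hroot] at hx
      rw [sum_piece Z x ?_ 1, Nat.cast_one]
      intro hxZ
      apply hy
      rw [Finset.mem_image]
      exact ⟨x, hxZ, hx⟩
    rw [h1, Finset.sum_comm]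
    refine Finset.sum_congr rfl fun k _ => ?_
    by_cases hyk : y ∈ (fun x => R.eval x) '' piece Z k
    · rw [Set.indicator_of_mem hyk]
      obtain ⟨x, hx, hxy⟩ := hyk
      rw [Finset.sum_eq_single_of_mem x]
      · rw [Set.indicator_of_mem hx]
      · rw [Multiset.mem_toFinset, hroot]; exact hxy
      · intro x' hx' hne'
        rw [Set.indicator_of_notMem]
        intro hx'p
        rw [Multiset.mem_toFinset, hroot] at hx'
        exact hne' (piece_injOn R Z hZ k hx'p hx (by simpa using hx'.trans hxy.symm))
    · rw [Set.indicator_of_notMem hyk]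
      apply Finset.sum_eq_zero
      intro x hx
      rw [Set.indicator_of_notMem]
      intro hxp
      rw [Multiset.mem_toFinset, hroot] at hx
      exact hyk ⟨x, hxp, hx⟩
  rw [hcard, Finset.mul_sum]
  refine Finset.sum_congr rfl fun k _ => ?_
  by_cases hyk : y ∈ (fun x => R.eval x) '' piece Z k
  · rw [Set.indicator_of_mem hyk, Set.indicator_of_mem hyk, mul_one]
  · rw [Set.indicator_of_notMem hyk, Set.indicator_of_notMem hyk, mul_zero]

end Pool.Agent.Work.MP_a7dd25_pr
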