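import Mathlib

open Finset

namespace Pool.Agent.Work.MP_a7dd25_pr

/-- weight of a bit -/
noncomputable def wt (h : ℝ) (b : Bool) : ℝ := if b then h else 1 - h

/-- weight of a bit vector -/
noncomputable def WW (n : ℕ) (h : ℝ) (β : Fin n → Bool) : ℝ := ∏ i, wt h (β i)

lemma wt_nonneg (h : ℝ) (h0 : 0 ≤ h) (h1 : h ≤ 1) (b : Bool) : 0 ≤ wt h b := by
  unfold wt; split_ifs <;> linarith

lemma WW_nonneg (n : ℕ) (h : ℝ) (h0 : 0 ≤ h) (h1 : h ≤ 1) (β : Fin n → Bool) : 0 ≤ WW n h β :=
  Finset.prod_nonneg fun i _ => wt_nonneg h h0 h1 _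

lemma expect_prod (n : ℕ) (h : ℝ) (g : Fin n → Bool → ℝ) :
    ∑ β : Fin n → Bool, WW n h β * ∏ i, g i (β i) = ∏ i, (h * g i true + (1 - h) * g i false) := by
  have h1 : ∀ β : Fin n → Bool, WW n h β * ∏ i, g i (β i) = ∏ i, (wt h (β i) * g i (β i)) := by
    intro β; rw [WW, Finset.prod_mul_distrib]
  simp_rw [h1]
  have h2 := Finset.prod_univ_sum (fun _ : Fin n => (Finset.univ : Finset Bool)) (fun i b => wt h b * g i b)
  rw [Fintype.piFinset_univ] at h2
  rw [← h2]
  refine Finset.prod_congr rfl fun i _ => ?_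
  simp [wt]

lemma WW_sum (n : ℕ) (h : ℝ) : ∑ β : Fin n → Bool, WW n h β = 1 := by
  have := expect_prod n h (fun _ _ => 1)
  simpa using this

lemma card_lt' (n : ℕ) (m : Fin n) : (Finset.univ.filter (fun x : Fin n => x < m)).card = (m : ℕ) := by
  have : (Finset.univ.filter (fun x : Fin n => x < m)) = Finset.Iio m := by ext; simp
  rw [this, Fin.card_Iio]

lemma card_le' (n : ℕ) (m : Fin n) : (Finset.univ.filter (fun x : Fin n => x ≤ m)).card = (m : ℕ) + 1 := by
  have : (Finset.univ.filter (fun x : Fin n => x ≤ m)) = Finset.Iic m := by ext; simp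
  rw [this, Fin.card_Iic]

lemma prod_lt (n : ℕ) (p : ℝ) (m : Fin n) : ∏ i : Fin n, (if i < m then p else 1) = p ^ (m : ℕ) := by
  rw [Finset.prod_ite]
  simp [card_lt']

lemma prod_le (n : ℕ) (p : ℝ) (m : Fin n) : ∏ i : Fin n, (if i ≤ m then p else 1) = p ^ ((m : ℕ) + 1) := by
  rw [Finset.prod_ite]
  simp [card_le']

/-- expectation of a function of one bit -/
lemma expect_single (n : ℕ) (h : ℝ) (k : Fin n) (f : Bool → ℝ) :
    ∑ β : Fin n → Bool, WW n h β * f (β k) = h * f true + (1 - h) * f false := by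
  have := expect_prod n h (fun i b => if i = k then f b else 1)
  have h1 : ∀ β : Fin n → Bool, ∏ i, (if i = k then f (β i) else 1) = f (β k) := by
    intro β; simp
  simp_rw [h1] at this
  rw [this]
  have h2 : ∀ i : Fin n, (h * (if i = k then f true else 1) + (1 - h) * (if i = k then f false else 1)) =
      if i = k then (h * f true + (1 - h) * f false) else 1 := by
    intro i; split_ifs <;> ring
  simp_rw [h2]
  simp

/-- number of `m` such that all bits up to `m` are false -/
noncomputable def Tn (n : ℕ) (β : Fin n → Bool) : ℝ :=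
  ∑ m : Fin n, ∏ i : Fin n, (if i ≤ m then (if β i then 0 else 1) else 1)

lemma Tn_nonneg (n : ℕ) (β : Fin n → Bool) : 0 ≤ Tn n β := by
  apply Finset.sum_nonneg; intro m _
  apply Finset.prod_nonneg; intro i _
  split_ifs <;> norm_num

lemma Tn_eq (n : ℕ) (β : Fin n → Bool) (T : Fin n) (hT : β T = true) (hT' : ∀ k, k < T → β k = false) :
    Tn n β = (T : ℕ) := by
  unfold Tn
  have h1 : ∀ m : Fin n, ∏ i : Fin n, (if i ≤ m then (if β i then (0 : ℝ) else 1) else 1) = if m < T then 1 else 0 := by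
    intro m
    split_ifs with hm
    · apply Finset.prod_eq_one
      intro i _
      split_ifs with h1 h2
      · rw [hT' i (lt_of_le_of_lt h1 hm)] at h2
        simp at h2
      · rfl
      · rfl
    · apply Finset.prod_eq_zero (Finset.mem_univ T)
      rw [if_pos (not_lt.mp hm), if_pos hT]
  simp_rw [h1]
  rw [Finset.sum_ite]
  simp [card_lt']

lemma geo_le' (r : ℝ) (hr0 : 0 ≤ r) (hr1 : r < 1) (N : ℕ) :
    ∑ k ∈ Finset.range N, r ^ k ≤ 1 / (1 - r) := by
  have h1 : 0 < 1 - r := by linarith
  rw [le_div_iff₀ h1, geom_sum_mul_neg]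
  have := pow_nonneg hr0 N
  linarith

lemma expect_Tn (n : ℕ) (h : ℝ) (h0 : 0 < h) (h1 : h ≤ 1) :
    ∑ β : Fin n → Bool, WW n h β * Tn n β ≤ 1 / h := by
  unfold Tn
  simp_rw [Finset.mul_sum]
  rw [Finset.sum_comm]
  have h2 : ∀ m : Fin n, ∑ β : Fin n → Bool, WW n h β * ∏ i : Fin n, (if i ≤ m then (if β i then (0 : ℝ) else 1) else 1) =
      (1 - h) ^ ((m : ℕ) + 1) := by
    intro m
    rw [expect_prod n h (fun i b => if i ≤ m then (if b then (0 : ℝ) else 1) else 1), ← prod_le n (1 - h) m]
    refine Finset.prod_congr rfl fun i _ => ?_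
    by_cases hi : i ≤ m
    · simp [hi]
    · simp [hi]
  simp_rw [h2]
  rw [← Finset.sum_range (fun m => (1 - h) ^ (m + 1))]
  have h3 := geo_le' (1 - h) (by linarith) (by linarith) n
  have h4 : ∑ m ∈ Finset.range n, (1 - h) ^ (m + 1) ≤ ∑ m ∈ Finset.range n, (1 - h) ^ m := by
    apply Finset.sum_le_sum
    intro m _
    rw [pow_succ]
    have : 0 ≤ (1 - h) ^ m := pow_nonneg (by linarith) m
    nlinarith
  rw [sub_sub_cancel] at h3
  linarith

/-- indicator that `m` is the first true index -/
noncomputable def ind (n : ℕ) (m : Fin n) (β : Fin n → Bool) : ℝ :=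
  ∏ i : Fin n, (if i < m then (if β i then 0 else 1) else if i = m then (if β i then 1 else 0) else 1)

lemma ind_nonneg (n : ℕ) (m : Fin n) (β : Fin n → Bool) : 0 ≤ ind n m β := by
  apply Finset.prod_nonneg; intro i _
  split_ifs <;> norm_num

lemma ind_eq_one (n : ℕ) (β : Fin n → Bool) (T : Fin n) (hT : β T = true) (hT' : ∀ k, k < T → β k = false) :
    ind n T β = 1 := by
  unfold ind
  apply Finset.prod_eq_one
  intro i _
  split_ifs with h1 h2 h3 h4
  · rw [hT' i h1] at h2; simp at h2
  · rfl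
  · rfl
  · subst h3; exact absurd hT h4
  · rfl

/-- expected tail sum -/
noncomputable def SS (n : ℕ) (q h : ℝ) (β : Fin n → Bool) : ℝ :=
  ∑ m : Fin n, ind n m β * ∑ k : Fin n, if m < k then (if β k then 1 else q) *
    Real.exp (-((((k : ℕ) : ℝ) - (m : ℕ)) * h)) else 0

lemma SS_inner_nonneg (n : ℕ) (q h : ℝ) (hq : 0 ≤ q) (m : Fin n) (β : Fin n → Bool) :
    0 ≤ ∑ k : Fin n, if m < k then (if β k then 1 else q) *
    Real.exp (-((((k : ℕ) : ℝ) - (m : ℕ)) * h)) else 0 := by
  apply Finset.sum_nonneg; intro k _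
  split_ifs <;> positivity

lemma SS_nonneg (n : ℕ) (q h : ℝ) (hq : 0 ≤ q) (β : Fin n → Bool) : 0 ≤ SS n q h β :=
  Finset.sum_nonneg fun m _ => mul_nonneg (ind_nonneg n m β) (SS_inner_nonneg n q h hq m β)

lemma SS_ge (n : ℕ) (q h : ℝ) (hq : 0 ≤ q) (β : Fin n → Bool) (T : Fin n) (hT : β T = true)
    (hT' : ∀ k, k < T → β k = false) :
    (∑ k : Fin n, if T < k then (if β k then 1 else q) *
    Real.exp (-((((k : ℕ) : ℝ) - (T : ℕ)) * h)) else 0) ≤ SS n q h β := by
  unfold SS
  have h1 := Finset.single_le_sum (f := fun m : Fin n => ind n m β * ∑ k : Fin n, if m < k then (if β k then 1 else q) *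
    Real.exp (-((((k : ℕ) : ℝ) - (m : ℕ)) * h)) else 0)
    (fun m _ => mul_nonneg (ind_nonneg n m β) (SS_inner_nonneg n q h hq m β)) (Finset.mem_univ T)
  simp only [ind_eq_one n β T hT hT', one_mul] at h1
  exact h1

lemma expect_ind (n : ℕ) (h : ℝ) (m k : Fin n) (hmk : m < k) (f : Bool → ℝ) :
    ∑ β : Fin n → Bool, WW n h β * (ind n m β * f (β k)) =
      (1 - h) ^ (m : ℕ) * h * (h * f true + (1 - h) * f false) := by
  have h1 : ∀ β : Fin n → Bool, ind n m β * f (β k) = ∏ i : Fin n,
      (fun (i : Fin n) (b : Bool) => (if i < m then (if b then (0 : ℝ) else 1) else if i = m then (if b then 1 else 0) else 1) *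
        (if i = k then f b else 1)) i (β i) := by
    intro β
    simp only
    rw [Finset.prod_mul_distrib, ind]
    congr 1
    simp
  rw [Finset.sum_congr rfl fun β _ => by rw [h1 β], expect_prod n h
      (fun (i : Fin n) (b : Bool) => (if i < m then (if b then (0 : ℝ) else 1) else if i = m then (if b then 1 else 0) else 1) *
        (if i = k then f b else 1))]
  have h2 : ∀ i : Fin n, (h * ((if i < m then (if (true : Bool) = true then (0 : ℝ) else 1) else if i = m then (if (true : Bool) = true then 1 else 0) else 1) *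
        (if i = k then f true else 1)) + (1 - h) * ((if i < m then (if (false : Bool) = true then (0 : ℝ) else 1) else if i = m then (if (false : Bool) = true then 1 else 0) else 1) *
        (if i = k then f false else 1))) =
      (if i < m then (1 - h) else 1) * (if i = m then h else 1) * (if i = k then (h * f true + (1 - h) * f false) else 1) := by
    intro i
    rcases lt_trichotomy i m with hi | hi | hi
    · have hik : i ≠ k := (hi.trans hmk).ne
      simp [hi, hi.ne, hik]
    · subst hi
      have hik : i ≠ k := hmk.ne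
      simp [hik]
    · have h3 : ¬ i < m := not_lt.mpr hi.le
      have h4 : i ≠ m := hi.ne'
      by_cases hik : i = k
      · simp [h3, h4, hik]
        subst hik
        simp [h3, h4]
      · simp [h3, h4, hik]
  rw [Finset.prod_congr rfl fun i _ => h2 i, Finset.prod_mul_distrib, Finset.prod_mul_distrib, prod_lt]
  simp

lemma geo_shift' (r : ℝ) (hr0 : 0 ≤ r) (hr1 : r < 1) (T N : ℕ) :
    ∑ k ∈ Finset.range N, (if T < k then r ^ (k - T) else 0) ≤ r / (1 - r) := by
  have h : ∑ k ∈ Finset.range N, (if T < k then r ^ (k - T) else 0) = r * ∑ k ∈ Finset.range (N - (T + 1)), r ^ k := by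
    induction N with
    | zero => simp
    | succ N ih =>
      rw [Finset.sum_range_succ, ih]
      split_ifs with hT
      · have e : N + 1 - (T + 1) = (N - (T + 1)) + 1 := by omega
        rw [e, Finset.sum_range_succ, mul_add]
        congr 1
        rw [← pow_succ']
        congr 1; omega
      · have : N + 1 - (T + 1) = 0 := by omega
        have h2 : N - (T + 1) = 0 := by omega
        rw [this, h2]; simp
  rw [h, div_eq_mul_one_div]
  exact mul_le_mul_of_nonneg_left (geo_le' r hr0 hr1 _) hr0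

lemma expect_SS (n : ℕ) (h q : ℝ) (h0 : 0 < h) (h1 : h ≤ 1) (hq : 0 ≤ q) (hqh : q ≤ h) :
    ∑ β : Fin n → Bool, WW n h β * SS n q h β ≤ 2 := by
  have key : ∑ β : Fin n → Bool, WW n h β * SS n q h β = ∑ m : Fin n, (1 - h) ^ (m : ℕ) * h * (h * 1 + (1 - h) * q) *
      ∑ k : Fin n, if m < k then Real.exp (-((((k : ℕ) : ℝ) - (m : ℕ)) * h)) else 0 := by
    unfold SS
    simp_rw [Finset.mul_sum]
    rw [Finset.sum_comm]
    refine Finset.sum_congr rfl fun m _ => ?_
    rw [Finset.sum_comm]
    refine Finset.sum_congr rfl fun k _ => ?_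
    by_cases hmk : m < k
    · simp only [if_pos hmk]
      have := expect_ind n h m k hmk (fun b => if b then 1 else q)
      simp only [if_true, Bool.false_eq_true, if_false] at this
      rw [← this, Finset.sum_mul]
      refine Finset.sum_congr rfl fun β _ => ?_
      ring
    · simp [hmk]
  rw [key]
  set r : ℝ := Real.exp (-h) with hr
  have hr0 : 0 ≤ r := (Real.exp_pos _).le
  have hr1 : r < 1 := by rw [hr, Real.exp_lt_one_iff]; linarith
  have hrh : r / (1 - r) ≤ 1 / h := by
    rw [div_le_div_iff₀ (by linarith) h0]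
    have h5 : r * (1 + h) ≤ 1 := by
      have h6 : r * Real.exp h = 1 := by rw [hr, ← Real.exp_add]; simp
      have h7 := Real.add_one_le_exp h
      nlinarith
    nlinarith
  have hk : ∀ m : Fin n, (∑ k : Fin n, if m < k then Real.exp (-((((k : ℕ) : ℝ) - (m : ℕ)) * h)) else 0) ≤ 1 / h := by
    intro m
    refine le_trans (le_of_eq ?_) ((geo_shift' r hr0 hr1 (m : ℕ) n).trans hrh)
    rw [Finset.sum_range]
    refine Finset.sum_congr rfl fun k _ => ?_
    by_cases hmk : m < k
    · have hmk' : (m : ℕ) < (k : ℕ) := hmk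
      rw [if_pos hmk, if_pos hmk', hr, ← Real.exp_nat_mul, Nat.cast_sub hmk'.le]
      congr 1; ring
    · have hmk' : ¬ ((m : ℕ) < (k : ℕ)) := hmk
      rw [if_neg hmk, if_neg hmk']
  calc _ ≤ ∑ m : Fin n, (1 - h) ^ (m : ℕ) * h * (h * 1 + (1 - h) * q) * (1 / h) := by
        apply Finset.sum_le_sum
        intro m _
        apply mul_le_mul_of_nonneg_left (hk m)
        have : 0 ≤ (1 - h) ^ (m : ℕ) := pow_nonneg (by linarith) _
        have h8 : 0 ≤ h * 1 + (1 - h) * q := by nlinarith
        positivity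
    _ = (h * 1 + (1 - h) * q) * ∑ m ∈ Finset.range n, (1 - h) ^ m := by
        rw [Finset.sum_range, Finset.mul_sum]
        refine Finset.sum_congr rfl fun m _ => ?_
        field_simp
    _ ≤ (h * 1 + (1 - h) * q) * (1 / h) := by
        apply mul_le_mul_of_nonneg_left
        · have h3 := geo_le' (1 - h) (by linarith) (by linarith) n
          rwa [sub_sub_cancel] at h3
        · nlinarith
    _ ≤ 2 := by
        rw [mul_one_div, div_le_iff₀ h0]
        nlinarith

end Pool.Agent.Work.MP_a7dd25_pr
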