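import Mathlib

/-!
Definitions for the problem on the constant term in the expected number of real roots of Kac
polynomials.
-/

open MeasureTheory Filter Topology

namespace Pool.Agent.Work.MP_a7dd25_pr

/-- The Kac polynomial `∑_{k=0}^{n} ω_k x^k` with coefficient vector `ω = (ω_0, ..., ω_n)`. -/
noncomputable def kac (n : ℕ) (ω : Fin (n + 1) → ℝ) : Polynomial ℝ :=
  ∑ k : Fin (n + 1), Polynomial.C (ω k) * Polynomial.X ^ (k : ℕ)

/-- The expected number of real roots, counted with multiplicity, of the Kac polynomial of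
degree `n` with i.i.d. coefficients of law `μ`. -/
noncomputable def expRoots (μ : Measure ℝ) (n : ℕ) : ℝ :=
  ∫ ω : Fin (n + 1) → ℝ, ((kac n ω).roots.card : ℝ) ∂(Measure.pi fun _ => μ)

/-- Admissible laws: mean zero, variance one, finite absolute moment of some order
`2 + ε₀` with `ε₀ > 0`. -/
structure Admissible (μ : Measure ℝ) : Prop where
  prob : IsProbabilityMeasure μ
  mean_zero : ∫ x, x ∂μ = 0
  var_one : ∫ x, x ^ 2 ∂μ = 1
  moment : ∃ ε₀ : ℝ, 0 < ε₀ ∧ Integrable (fun x : ℝ => |x| ^ (2 + ε₀)) μ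

end Pool.Agent.Work.MP_a7dd25_pr
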