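import Pool.Agent.Work.MP_a7dd25_pr.Mixture

open MeasureTheory Set Filter Topology ProbabilityTheory
open scoped NNReal ENNReal

namespace Pool.Agent.Work.MP_a7dd25_pr

lemma expRoots_eq (μ : Measure ℝ) (N : ℕ) :
    expRoots μ N = (∫⁻ ω, (((kac N ω).roots.card : ℕ) : ℝ≥0∞) ∂(Measure.pi fun _ : Fin (N + 1) => μ)).toReal := by
  have hmcard : Measurable (fun ω : Fin (N + 1) → ℝ => (((kac N ω).roots.card : ℕ) : ℝ≥0∞)) := by
    have h2 : Measurable (fun m : ℕ => (m : ℝ≥0∞)) := measurable_from_top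
    exact h2.comp (measurable_card N)
  rw [← integral_toReal hmcard.aemeasurable (Eventually.of_forall fun ω => ENNReal.natCast_lt_top _)]
  rfl

lemma gauss_sq (v : ℝ≥0) : ∫ x, x ^ 2 ∂gaussianReal 0 v = v := by
  have h := variance_id_gaussianReal (μ := 0) (v := v)
  rw [variance_eq_sub (memLp_id_gaussianReal 2)] at h
  simp only [Pi.pow_apply, id] at h
  rw [integral_id_gaussianReal] at h
  simpa using h

lemma gauss_int_sq (v : ℝ≥0) : Integrable (fun x : ℝ => x ^ 2) (gaussianReal 0 v) := by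
  have := (memLp_id_gaussianReal (μ := 0) (v := v) 2).integrable_sq
  simpa using this

lemma gauss_int_id (v : ℝ≥0) : Integrable (fun x : ℝ => x) (gaussianReal 0 v) := by
  have := (memLp_id_gaussianReal (μ := 0) (v := v) 1)
  rw [ENNReal.coe_one, memLp_one_iff_integrable] at this
  exact this

lemma gauss_int_four (v : ℝ≥0) : Integrable (fun x : ℝ => |x| ^ ((2 : ℝ) + 2)) (gaussianReal 0 v) := by
  have := (memLp_id_gaussianReal (μ := 0) (v := v) 4).integrable_norm_rpow (by norm_num) (by norm_num)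
  have e : ((4 : ℝ≥0) : ℝ≥0∞).toReal = (2 : ℝ) + 2 := by
    rw [ENNReal.coe_toReal]; norm_num
  rw [e] at this
  simpa using this

lemma mix_admissible (A q h : ℝ) (hA : 0 < A) (h0 : 0 < h) (h1 : h ≤ 1)
    (hnorm : A * (h + (1 - h) * q ^ 2) = 1) : Admissible (mix A q h) where
  prob := mix_prob A q h h0.le h1
  mean_zero := by
    unfold mix
    rw [integral_add_measure ((gauss_int_id _).smul_measure ENNReal.ofReal_ne_top)
      ((gauss_int_id _).smul_measure ENNReal.ofReal_ne_top), integral_smul_measure, integral_smul_measure,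
      integral_id_gaussianReal, integral_id_gaussianReal]
    simp
  var_one := by
    unfold mix
    rw [integral_add_measure ((gauss_int_sq _).smul_measure ENNReal.ofReal_ne_top)
      ((gauss_int_sq _).smul_measure ENNReal.ofReal_ne_top), integral_smul_measure, integral_smul_measure,
      gauss_sq, gauss_sq, ENNReal.toReal_ofReal (by linarith), ENNReal.toReal_ofReal h0.le,
      Real.coe_toNNReal _ (by positivity), Real.coe_toNNReal _ hA.le, smul_eq_mul, smul_eq_mul]
    linarith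
  moment := by
    refine ⟨2, by norm_num, ?_⟩
    unfold mix
    exact ((gauss_int_four _).smul_measure ENNReal.ofReal_ne_top).add_measure
      ((gauss_int_four _).smul_measure ENNReal.ofReal_ne_top)

lemma mix_atom (A q h : ℝ) (hA : 0 < A) (hq : 0 < q) : mix A q h {0} = 0 := by
  have h1 : (q ^ 2 * A).toNNReal ≠ 0 := by
    have : 0 < q ^ 2 * A := by positivity
    simpa using this
  have h2 : A.toNNReal ≠ 0 := by simpa using hA
  have e1 : gaussianReal 0 (q ^ 2 * A).toNNReal {0} = 0 := by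
    have := nullSingletonClass_gaussianReal (μ := 0) h1
    exact measure_singleton 0
  have e2 : gaussianReal 0 A.toNNReal {0} = 0 := by
    have := nullSingletonClass_gaussianReal (μ := 0) h2
    exact measure_singleton 0
  simp [mix, e1, e2]

lemma gauss_lower (N : ℕ) (hN : 1 ≤ N) :
    (4 / Real.pi) * ((1 / 2) * Real.log (N + 1) - 7 / 2) ≤ expRoots (gaussianReal 0 1) N := by
  rw [expRoots_eq]
  have h1 : (Measure.pi fun _ : Fin (N + 1) => gaussianReal 0 1) =
      Measure.pi fun i : Fin (N + 1) => gaussianReal 0 ((fun _ : Fin (N + 1) => (1 : ℝ)) i).toNNReal := by simp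
  have h2 := gauss_roots N hN (fun _ => 1) (fun _ => one_pos)
  rw [← h1] at h2
  have hfin : ∫⁻ ω, (((kac N ω).roots.card : ℕ) : ℝ≥0∞) ∂(Measure.pi fun _ : Fin (N + 1) => gaussianReal 0 1) ≠ ∞ := by
    have hle : ∫⁻ ω, (((kac N ω).roots.card : ℕ) : ℝ≥0∞) ∂(Measure.pi fun _ : Fin (N + 1) => gaussianReal 0 1) ≤
        ∫⁻ ω, (N : ℝ≥0∞) ∂(Measure.pi fun _ : Fin (N + 1) => gaussianReal 0 1) := by
      apply lintegral_mono
      intro ω
      have : (kac N ω).roots.card ≤ N := (Polynomial.card_roots' _).trans (natDegree_kac_le N ω)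
      change (((kac N ω).roots.card : ℕ) : ℝ≥0∞) ≤ ((N : ℕ) : ℝ≥0∞)
      exact_mod_cast this
    refine ne_top_of_le_ne_top ?_ hle
    simp
  have h3 : ENNReal.ofReal ((4 / Real.pi) * ((1 / 2) * Real.log (N + 1) - 7 / 2)) ≤
      ∫⁻ ω, (((kac N ω).roots.card : ℕ) : ℝ≥0∞) ∂(Measure.pi fun _ : Fin (N + 1) => gaussianReal 0 1) := by
    rw [h2, ENNReal.ofReal_mul (by positivity)]
    have h4 := lower_X N hN
    have e3 : ENNReal.ofReal (1 / Real.pi) * (2 * (XX N (fun _ => 1) + XX N (fun _ => 1))) =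
        ENNReal.ofReal (4 / Real.pi) * XX N (fun _ => 1) := by
      have e4 : ENNReal.ofReal (4 / Real.pi) = ENNReal.ofReal (1 / Real.pi) * 4 := by
        have : (4 : ℝ≥0∞) = ENNReal.ofReal 4 := by simp
        rw [this, ← ENNReal.ofReal_mul (by positivity)]
        congr 1; ring
      rw [e4]; ring
    rw [e3]
    exact mul_le_mul_right h4 _
  exact (ENNReal.ofReal_le_iff_le_toReal hfin).mp h3

lemma mix_upper (N : ℕ) (hN : 1 ≤ N) (A q h : ℝ) (hA : 0 < A) (hq : 0 < q) (hq1 : q < 1)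
    (hh : 0 < h) (hh1 : h ≤ 1) (hqh : q ≤ h) (hnorm : A * (h + (1 - h) * q ^ 2) = 1) (hNh : 1 / (N : ℝ) ≤ h) :
    expRoots (mix A q h) N ≤ (4 / Real.pi) * (c0 N A h + 1 / 4 + (h / 2 + 3 / Real.log (1 / q)) * (1 / h) + 2 +
      (1 - h) ^ (N + 1) * (N + 2 + |c0 N A h|)) := by
  rw [expRoots_eq, mix_roots N hN A q h hA hq hh.le hh1]
  have hE := expect_DD N A q h hq hq1 hh hh1 hqh hnorm
  have hD := X_le_DD N hN A q h hA hq hq1 hh hNh
  have hnn : 0 ≤ ∑ β : Fin (N + 1) → Bool, WW (N + 1) h β * DD N A q h β :=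
    Finset.sum_nonneg fun β _ => mul_nonneg (WW_nonneg _ h hh.le hh1 β) (hD β).1
  apply ENNReal.toReal_le_of_le_ofReal
  · have := hnn.trans hE
    positivity
  · rw [ENNReal.ofReal_mul (by positivity)]
    apply mul_le_mul_right
    refine le_trans ?_ (ENNReal.ofReal_le_ofReal hE)
    rw [ENNReal.ofReal_sum_of_nonneg fun β _ => mul_nonneg (WW_nonneg _ h hh.le hh1 β) (hD β).1]
    apply Finset.sum_le_sum
    intro β _
    rw [ENNReal.ofReal_mul (WW_nonneg _ h hh.le hh1 β)]
    exact mul_le_mul_right (hD β).2 _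

lemma err_tendsto (A h : ℝ) (hh : 0 < h) (hh1 : h ≤ 1) :
    Tendsto (fun N : ℕ => (1 - h) ^ (N + 1) * (N + 2 + |c0 N A h|)) atTop (𝓝 0) := by
  have hr0 : 0 ≤ 1 - h := by linarith
  have hr1 : 1 - h < 1 := by linarith
  have t1 : Tendsto (fun N : ℕ => (N : ℝ) * (1 - h) ^ N) atTop (𝓝 0) :=
    tendsto_self_mul_const_pow_of_lt_one hr0 hr1
  have t2 : Tendsto (fun N : ℕ => (1 - h) ^ N) atTop (𝓝 0) := tendsto_pow_atTop_nhds_zero_of_lt_one hr0 hr1
  set C : ℝ := 8 + |Real.log A| + |Real.log h| with hC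
  have t3 : Tendsto (fun N : ℕ => 3 * ((N : ℝ) * (1 - h) ^ N) + C * (1 - h) ^ N) atTop (𝓝 (3 * 0 + C * 0)) :=
    (t1.const_mul 3).add (t2.const_mul C)
  simp only [mul_zero, add_zero] at t3
  refine squeeze_zero' (Eventually.of_forall fun N => ?_) ?_ t3
  · have : 0 ≤ (1 - h) ^ (N + 1) := pow_nonneg hr0 _
    positivity
  · filter_upwards [eventually_ge_atTop 1] with N hN
    have hNpos : (0 : ℝ) < N := by positivity
    have hN1 : (1 : ℝ) ≤ N := by exact_mod_cast hN
    have hlogN : |Real.log N| ≤ N := by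
      rw [abs_of_nonneg (Real.log_nonneg hN1)]
      have := Real.log_le_sub_one_of_pos hNpos
      linarith
    have hlogN1 : |Real.log (N + 1)| ≤ N := by
      rw [abs_of_nonneg (Real.log_nonneg (by linarith))]
      have := Real.log_le_sub_one_of_pos (show (0 : ℝ) < N + 1 by positivity)
      linarith
    have hc : |c0 N A h| ≤ 5 + N + |Real.log A| + |Real.log h| := by
      unfold c0
      have a1 := abs_le.mp hlogN
      have a2 := abs_le.mp hlogN1
      have b1 := neg_abs_le (Real.log A)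
      have b2 := le_abs_self (Real.log A)
      have b3 := neg_abs_le (Real.log h)
      have b4 := le_abs_self (Real.log h)
      have b5 := abs_nonneg (Real.log A)
      have b6 := abs_nonneg (Real.log h)
      rw [abs_le]
      constructor <;> linarith [a1.1, a1.2, a2.1, a2.2]
    have hp : 0 ≤ (1 - h) ^ N := pow_nonneg hr0 _
    calc (1 - h) ^ (N + 1) * (N + 2 + |c0 N A h|) ≤ (1 - h) ^ N * (N + 2 + |c0 N A h|) := by
          apply mul_le_mul_of_nonneg_right
          · rw [pow_succ]; nlinarith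
          · positivity
      _ ≤ (1 - h) ^ N * (3 * N + C) := by
          apply mul_le_mul_of_nonneg_left _ hp
          linarith
      _ = _ := by ring

/-- Main theorem: the constant can be pushed below the Gaussian one by an arbitrary amount. -/
theorem main (M : ℝ) : ∃ μ : Measure ℝ, Admissible μ ∧ μ {0} = 0 ∧
    ∀ᶠ n : ℕ in atTop, expRoots μ n ≤ expRoots (gaussianReal 0 1) n - M := by
  set R : ℝ := 33 + 2 * |M| with hR
  have hRpos : 0 < R := by positivity
  set h : ℝ := Real.exp (-R) with hh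
  have hhpos : 0 < h := Real.exp_pos _
  have hh1 : h < 1 := by rw [hh, Real.exp_lt_one_iff]; linarith
  set q : ℝ := Real.exp (-(1 / h)) with hq
  have hqpos : 0 < q := Real.exp_pos _
  have hqh : q ≤ h := by
    have h1 : Real.exp (-(1 / h)) ≤ h := by
      rw [Real.exp_neg]
      have h2 : 1 / h ≤ Real.exp (1 / h) := by
        have := Real.add_one_le_exp (1 / h)
        linarith
      calc (Real.exp (1 / h))⁻¹ ≤ (1 / h)⁻¹ := inv_anti₀ (by positivity) h2
        _ = h := by rw [one_div, inv_inv]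
    exact h1
  have hq1 : q < 1 := lt_of_le_of_lt hqh hh1
  have hL : Real.log (1 / q) = 1 / h := by
    rw [one_div, Real.log_inv, hq, Real.log_exp, neg_neg]
  set S : ℝ := h + (1 - h) * q ^ 2 with hS
  have hSpos : 0 < S := by
    have : 0 ≤ (1 - h) * q ^ 2 := mul_nonneg (by linarith) (sq_nonneg _)
    linarith
  have hS2 : S ≤ 2 * h := by
    have : q ^ 2 ≤ h := by nlinarith
    nlinarith [sq_nonneg q]
  set A : ℝ := 1 / S with hA
  have hApos : 0 < A := by positivity
  have hnorm : A * (h + (1 - h) * q ^ 2) = 1 := by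
    rw [hA, ← hS]; field_simp
  have hlogA : -Real.log A ≤ 1 + Real.log h := by
    rw [hA, one_div, Real.log_inv, neg_neg]
    have h1 := Real.log_le_log hSpos hS2
    rw [Real.log_mul (by norm_num) hhpos.ne'] at h1
    have h2 : Real.log 2 ≤ 1 := by
      have := Real.log_le_sub_one_of_pos (show (0 : ℝ) < 2 by norm_num)
      linarith
    linarith
  refine ⟨mix A q h, mix_admissible A q h hApos hhpos hh1.le hnorm, mix_atom A q h hApos hqpos, ?_⟩
  have herr := (err_tendsto A h hhpos hh1.le).eventually (gt_mem_nhds (show (0 : ℝ) < 1 by norm_num))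
  have hNh : ∀ᶠ N : ℕ in atTop, 1 / (N : ℝ) ≤ h :=
    (tendsto_one_div_atTop_nhds_zero_nat (𝕜 := ℝ)).eventually (ge_mem_nhds hhpos)
  filter_upwards [herr, hNh, eventually_ge_atTop 1] with N hN1 hN2 hN3
  have hup := mix_upper N hN3 A q h hApos hqpos hq1 hhpos hh1.le hqh hnorm hN2
  have hlo := gauss_lower N hN3
  have hNpos : (0 : ℝ) < N := by positivity
  have hlogN : Real.log N ≤ Real.log (N + 1) := Real.log_le_log hNpos (by linarith)
  have hloghh : Real.log h = -R := by rw [hh, Real.log_exp]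
  have h35 : (h / 2 + 3 / Real.log (1 / q)) * (1 / h) = 7 / 2 := by
    rw [hL]; field_simp; ring
  have hU : c0 N A h + 1 / 4 + (h / 2 + 3 / Real.log (1 / q)) * (1 / h) + 2 +
      (1 - h) ^ (N + 1) * (N + 2 + |c0 N A h|) ≤ (1 / 2) * Real.log (N + 1) + 12 - (1 / 2) * R := by
    rw [h35]
    have : c0 N A h ≤ 9 / 2 + (1 / 2) * Real.log (N + 1) - (1 / 2) * R := by
      unfold c0
      linarith
    linarith
  have hpi : 0 < Real.pi := Real.pi_pos
  have hpi4 : Real.pi < 4 := by linarith [Real.pi_lt_d2]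
  have h4 : (4 / Real.pi) * (c0 N A h + 1 / 4 + (h / 2 + 3 / Real.log (1 / q)) * (1 / h) + 2 +
      (1 - h) ^ (N + 1) * (N + 2 + |c0 N A h|)) ≤ (4 / Real.pi) * ((1 / 2) * Real.log (N + 1) + 12 - (1 / 2) * R) :=
    mul_le_mul_of_nonneg_left hU (by positivity)
  have h5 : (4 / Real.pi) * ((1 / 2) * Real.log (N + 1) + 12 - (1 / 2) * R) -
      (4 / Real.pi) * ((1 / 2) * Real.log (N + 1) - 7 / 2) ≤ -M := by
    have e : (4 / Real.pi) * ((1 / 2) * Real.log (N + 1) + 12 - (1 / 2) * R) -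
      (4 / Real.pi) * ((1 / 2) * Real.log (N + 1) - 7 / 2) = -((4 / Real.pi) * ((1 / 2) * R - 31 / 2)) := by ring
    rw [e, neg_le_neg_iff]
    have h6 : (1 : ℝ) ≤ 4 / Real.pi := by rw [le_div_iff₀ hpi]; linarith
    have h7 : |M| ≤ (1 / 2) * R - 31 / 2 := by rw [hR]; linarith
    have h8 : 0 ≤ |M| := abs_nonneg M
    calc M ≤ |M| := le_abs_self M
      _ ≤ 1 * ((1 / 2) * R - 31 / 2) := by rw [one_mul]; exact h7
      _ ≤ (4 / Real.pi) * ((1 / 2) * R - 31 / 2) := mul_le_mul_of_nonneg_right h6 (h8.trans h7)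
  linarith

end Pool.Agent.Work.MP_a7dd25_pr
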