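import Mathlib

open MeasureTheory ProbabilityTheory
open scoped NNReal ENNReal

namespace Pool.Agent.Work.MP_a7dd25_pr

variable {ι : Type*} [Fintype ι]

/-- law of the coordinates -/
lemma pi_coord_law (v : ι → ℝ≥0) (i : ι) :
    (Measure.pi fun i => gaussianReal 0 (v i)).map (fun a : ι → ℝ => a i) = gaussianReal 0 (v i) :=
  (measurePreserving_eval (fun i => gaussianReal 0 (v i)) i).map_eq

lemma pi_hasGaussianLaw (v : ι → ℝ≥0) :
    HasGaussianLaw (fun a : ι → ℝ => a) (Measure.pi fun i => gaussianReal 0 (v i)) := by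
  have h1 : ∀ i, HasGaussianLaw (fun a : ι → ℝ => a i) (Measure.pi fun i => gaussianReal 0 (v i)) := by
    intro i
    constructor
    rw [pi_coord_law]
    infer_instance
  have h2 : iIndepFun (fun (i : ι) (a : ι → ℝ) => a i) (Measure.pi fun i => gaussianReal 0 (v i)) :=
    iIndepFun_pi (X := fun _ x => x) fun i => aemeasurable_id
  exact iIndepFun.hasGaussianLaw h1 h2

/-- linear form as a continuous linear map -/
noncomputable def lin (c : ι → ℝ) : (ι → ℝ) →L[ℝ] ℝ := ∑ i, c i • ContinuousLinearMap.proj i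

lemma lin_apply (c a : ι → ℝ) : lin c a = ∑ i, c i * a i := by
  simp [lin]

lemma lin_law (v : ι → ℝ≥0) (c : ι → ℝ) :
    HasGaussianLaw (fun a : ι → ℝ => lin c a) (Measure.pi fun i => gaussianReal 0 (v i)) :=
  (pi_hasGaussianLaw v).map_fun (lin c)

lemma cov_coord [DecidableEq ι] (v : ι → ℝ≥0) (i j : ι) :
    cov[fun a : ι → ℝ => a i, fun a => a j; Measure.pi fun i => gaussianReal 0 (v i)] =
      if i = j then (v i : ℝ) else 0 := by
  split_ifs with h
  · subst h
    rw [covariance_self (measurable_pi_apply i).aemeasurable]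
    have := pi_coord_law v i
    have h2 : Var[fun x : ℝ => x; (Measure.pi fun i => gaussianReal 0 (v i)).map (fun a : ι → ℝ => a i)] =
        Var[(fun x : ℝ => x) ∘ (fun a : ι → ℝ => a i); Measure.pi fun i => gaussianReal 0 (v i)] := by
      exact variance_map (X := fun x : ℝ => x) (by fun_prop) (measurable_pi_apply i).aemeasurable
    rw [this, variance_fun_id_gaussianReal] at h2
    rw [h2]; rfl
  · have h2 : iIndepFun (fun (i : ι) (a : ι → ℝ) => a i) (Measure.pi fun i => gaussianReal 0 (v i)) :=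
      iIndepFun_pi (X := fun _ x => x) fun i => aemeasurable_id
    have h3 : ∀ i, HasGaussianLaw (fun a : ι → ℝ => a i) (Measure.pi fun i => gaussianReal 0 (v i)) := by
      intro i
      constructor
      rw [pi_coord_law]
      infer_instance
    exact (h2.indepFun h).covariance_eq_zero (h3 i).memLp_two (h3 j).memLp_two

lemma cov_lin (v : ι → ℝ≥0) (c d : ι → ℝ) :
    cov[fun a : ι → ℝ => lin c a, fun a => lin d a; Measure.pi fun i => gaussianReal 0 (v i)] =
      ∑ i, c i * d i * v i := by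
  classical
  have h3 : ∀ i, HasGaussianLaw (fun a : ι → ℝ => a i) (Measure.pi fun i => gaussianReal 0 (v i)) := by
    intro i
    constructor
    rw [pi_coord_law]
    infer_instance
  have e1 : (fun a : ι → ℝ => lin c a) = fun a => ∑ i, (fun a : ι → ℝ => c i * a i) a := by
    ext a; rw [lin_apply]
  have e2 : (fun a : ι → ℝ => lin d a) = fun a => ∑ i, (fun a : ι → ℝ => d i * a i) a := by
    ext a; rw [lin_apply]
  rw [e1, e2, covariance_fun_sum_fun_sum]
  · simp_rw [covariance_const_mul_left, covariance_const_mul_right, cov_coord]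
    refine Finset.sum_congr rfl fun i _ => ?_
    rw [Finset.sum_eq_single i]
    · simp; ring
    · intro j _ hj; simp [Ne.symm hj]
    · intro h; exact absurd (Finset.mem_univ i) h
  · intro i; exact (h3 i).memLp_two.const_mul _
  · intro i; exact (h3 i).memLp_two.const_mul _

lemma mean_lin (v : ι → ℝ≥0) (c : ι → ℝ) :
    ∫ a, lin c a ∂(Measure.pi fun i => gaussianReal 0 (v i)) = 0 := by
  simp_rw [lin_apply]
  have h3 : ∀ i, HasGaussianLaw (fun a : ι → ℝ => a i) (Measure.pi fun i => gaussianReal 0 (v i)) := by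
    intro i
    constructor
    rw [pi_coord_law]
    infer_instance
  rw [integral_finsetSum]
  · apply Finset.sum_eq_zero
    intro i _
    rw [integral_const_mul]
    have := integral_map (μ := Measure.pi fun i => gaussianReal 0 (v i))
      (φ := fun a : ι → ℝ => a i) (measurable_pi_apply i).aemeasurable (f := fun x : ℝ => x) (by fun_prop)
    rw [pi_coord_law, integral_id_gaussianReal] at this
    rw [← this, mul_zero]
  · intro i _; exact (h3 i).integrable.const_mul _

lemma lin_map (v : ι → ℝ≥0) (c : ι → ℝ) (α : ℝ≥0) (hα : (α : ℝ) = ∑ i, c i * c i * v i) :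
    (Measure.pi fun i => gaussianReal 0 (v i)).map (fun a : ι → ℝ => lin c a) = gaussianReal 0 α := by
  rw [(lin_law v c).map_eq_gaussianReal]
  have h1 : (Measure.pi fun i => gaussianReal 0 (v i))[fun a : ι → ℝ => lin c a] = 0 := mean_lin v c
  have h2 : Var[fun a : ι → ℝ => lin c a; Measure.pi fun i => gaussianReal 0 (v i)] = α := by
    rw [← covariance_self (lin_law v c).aemeasurable, cov_lin, hα]
  rw [h1, h2]
  simp

lemma lin_pair_map (v : ι → ℝ≥0) (c d : ι → ℝ) (α s : ℝ≥0) (hα : (α : ℝ) = ∑ i, c i * c i * v i)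
    (hs : (s : ℝ) = ∑ i, d i * d i * v i) (h0 : ∑ i, c i * d i * v i = 0) :
    (Measure.pi fun i => gaussianReal 0 (v i)).map (fun a : ι → ℝ => (lin c a, lin d a)) =
      (gaussianReal 0 α).prod (gaussianReal 0 s) := by
  have hlaw : HasGaussianLaw (fun a : ι → ℝ => (lin c a, lin d a)) (Measure.pi fun i => gaussianReal 0 (v i)) :=
    (pi_hasGaussianLaw v).map_fun ((lin c).prod (lin d))
  have hind : IndepFun (fun a : ι → ℝ => lin c a) (fun a => lin d a) (Measure.pi fun i => gaussianReal 0 (v i)) := by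
    apply hlaw.indepFun_of_covariance_eq_zero
    rw [cov_lin, h0]
  rw [indepFun_iff_map_prod_eq_prod_map_map (lin_law v c).aemeasurable (lin_law v d).aemeasurable] at hind
  rw [hind, lin_map v c α hα, lin_map v d s hs]

/-- first absolute moment of the standard Gaussian -/
noncomputable def K₁ : ℝ≥0∞ := ∫⁻ x, ENNReal.ofReal |x| ∂gaussianReal 0 1

lemma abs_moment (q : ℝ≥0) :
    ∫⁻ x, ENNReal.ofReal |x| ∂gaussianReal 0 q = ENNReal.ofReal (Real.sqrt q) * K₁ := by
  have h : gaussianReal 0 q = (gaussianReal 0 1).map (fun x => Real.sqrt q * x) := by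
    rw [gaussianReal_map_const_mul]
    congr 1
    · simp
    · ext; simp
  rw [h, lintegral_map (by fun_prop) (by fun_prop), K₁, ← lintegral_const_mul _ (by fun_prop)]
  refine lintegral_congr fun x => ?_
  rw [abs_mul, abs_of_nonneg (Real.sqrt_nonneg _), ENNReal.ofReal_mul (Real.sqrt_nonneg _)]

lemma pdf_mul (v0 α : ℝ≥0) (hv0 : v0 ≠ 0) (hα : α ≠ 0) (u : ℝ) :
    gaussianPDF 0 α u * gaussianPDF 0 v0 u =
      ENNReal.ofReal (1 / Real.sqrt (2 * Real.pi * (v0 + α))) *
        gaussianPDF 0 (v0 * α / (v0 + α)) u := by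
  have hv0' : (0 : ℝ) < v0 := by positivity
  have hα' : (0 : ℝ) < α := by positivity
  simp only [gaussianPDF]
  rw [← ENNReal.ofReal_mul (gaussianPDFReal_nonneg _ _ _), ← ENNReal.ofReal_mul (by positivity)]
  congr 1
  simp only [gaussianPDFReal, sub_zero]
  have hτ : (((v0 * α / (v0 + α) : ℝ≥0)) : ℝ) = v0 * α / (v0 + α) := by push_cast; ring
  rw [hτ]
  have e1 : (Real.sqrt (2 * Real.pi * α))⁻¹ * (Real.sqrt (2 * Real.pi * v0))⁻¹ =
      1 / Real.sqrt (2 * Real.pi * (v0 + α)) * (Real.sqrt (2 * Real.pi * (v0 * α / (v0 + α))))⁻¹ := by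
    rw [← mul_inv, ← Real.sqrt_mul (by positivity), one_div, ← mul_inv, ← Real.sqrt_mul (by positivity)]
    congr 2
    field_simp
  have e2 : Real.exp (-u ^ 2 / (2 * α)) * Real.exp (-u ^ 2 / (2 * v0)) =
      Real.exp (-u ^ 2 / (2 * (v0 * α / (v0 + α)))) := by
    rw [← Real.exp_add]
    congr 1
    field_simp
    ring
  calc _ = ((Real.sqrt (2 * Real.pi * α))⁻¹ * (Real.sqrt (2 * Real.pi * v0))⁻¹) *
        (Real.exp (-u ^ 2 / (2 * α)) * Real.exp (-u ^ 2 / (2 * v0))) := by ring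
    _ = _ := by rw [e1, e2]; ring

lemma conv_abs (k : ℝ) (τ s : ℝ≥0) (q : ℝ≥0) (hq : (q : ℝ) = k ^ 2 * τ + s) :
    ∫⁻ u, ∫⁻ w, ENNReal.ofReal |w + k * u| ∂gaussianReal 0 s ∂gaussianReal 0 τ =
      ENNReal.ofReal (Real.sqrt q) * K₁ := by
  rw [← abs_moment]
  have h1 : gaussianReal 0 q = (gaussianReal 0 (⟨k ^ 2, sq_nonneg k⟩ * τ)) ∗ (gaussianReal 0 s) := by
    rw [gaussianReal_conv_gaussianReal]
    congr 1
    · simp
    · ext; push_cast; rw [hq]; rfl
  have h2 : gaussianReal 0 (⟨k ^ 2, sq_nonneg k⟩ * τ) = (gaussianReal 0 τ).map (fun x => k * x) := by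
    rw [gaussianReal_map_const_mul]
    congr 1
    simp
  rw [h1, Measure.lintegral_conv (by fun_prop), h2, lintegral_map ?_ (by fun_prop)]
  · refine lintegral_congr fun u => lintegral_congr fun w => ?_
    rw [add_comm]
  · have : Measurable (fun p : ℝ × ℝ => ENNReal.ofReal |p.1 + p.2|) := by fun_prop
    exact this.lintegral_prod_right'

/-- The Gaussian expectation behind the Kac-Rice formula. -/
theorem gauss_expectation (v : ι → ℝ≥0) (c d : ι → ℝ) (v0 : ℝ≥0) (hv0 : v0 ≠ 0)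
    (α β γ : ℝ) (hα : α = ∑ i, c i * c i * v i) (hβ : β = ∑ i, c i * d i * v i)
    (hγ : γ = ∑ i, d i * d i * v i) (hpos : 0 < α) :
    ∫⁻ a, ENNReal.ofReal |lin d a| * gaussianPDF 0 v0 (lin c a) ∂(Measure.pi fun i => gaussianReal 0 (v i)) =
      ENNReal.ofReal (Real.sqrt ((v0 + α) * γ - β ^ 2) / (v0 + α) / Real.sqrt (2 * Real.pi)) * K₁ := by
  set k : ℝ := β / α with hk
  set e : ι → ℝ := fun i => d i - k * c i with he
  have hlin : ∀ a, lin d a = lin e a + k * lin c a := by
    intro a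
    simp only [lin_apply, he, Finset.mul_sum, ← Finset.sum_add_distrib]
    refine Finset.sum_congr rfl fun i _ => ?_
    ring
  have hs0 : 0 ≤ ∑ i, e i * e i * (v i : ℝ) :=
    Finset.sum_nonneg fun i _ => mul_nonneg (mul_self_nonneg _) (v i).2
  set s : ℝ≥0 := ⟨∑ i, e i * e i * (v i : ℝ), hs0⟩ with hs
  set αn : ℝ≥0 := ⟨α, hpos.le⟩ with hαn
  have hs' : (s : ℝ) = γ - β ^ 2 / α := by
    have : (s : ℝ) = ∑ i, e i * e i * (v i : ℝ) := rfl
    rw [this]
    have h1 : ∑ i, e i * e i * (v i : ℝ) =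
        ∑ i, d i * d i * (v i : ℝ) - 2 * k * ∑ i, c i * d i * (v i : ℝ) + k ^ 2 * ∑ i, c i * c i * (v i : ℝ) := by
      rw [Finset.mul_sum, Finset.mul_sum, ← Finset.sum_sub_distrib, ← Finset.sum_add_distrib]
      refine Finset.sum_congr rfl fun i _ => ?_
      simp only [he]; ring
    rw [h1, ← hα, ← hβ, ← hγ, hk]
    field_simp
    ring
  have hce : ∑ i, c i * e i * (v i : ℝ) = 0 := by
    have h1 : ∑ i, c i * e i * (v i : ℝ) = ∑ i, c i * d i * (v i : ℝ) - k * ∑ i, c i * c i * (v i : ℝ) := by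
      rw [Finset.mul_sum, ← Finset.sum_sub_distrib]
      refine Finset.sum_congr rfl fun i _ => ?_
      simp only [he]; ring
    rw [h1, ← hα, ← hβ, hk]
    field_simp
    ring
  have hmap := lin_pair_map v c e αn s hα rfl hce
  have hαn0 : αn ≠ 0 := by
    intro h
    have h2 : (αn : ℝ) = 0 := by rw [h]; rfl
    have h3 : (αn : ℝ) = α := rfl
    linarith
  set F : ℝ × ℝ → ℝ≥0∞ := fun p => ENNReal.ofReal |p.2 + k * p.1| * gaussianPDF 0 v0 p.1 with hF
  have hFm : Measurable F := by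
    have := measurable_gaussianPDF 0 v0
    fun_prop
  have step1 : ∫⁻ a, ENNReal.ofReal |lin d a| * gaussianPDF 0 v0 (lin c a) ∂(Measure.pi fun i => gaussianReal 0 (v i)) =
      ∫⁻ p, F p ∂((gaussianReal 0 αn).prod (gaussianReal 0 s)) := by
    rw [← hmap, lintegral_map hFm (by fun_prop)]
    refine lintegral_congr fun a => ?_
    simp only [hF, hlin]
  rw [step1, lintegral_prod _ hFm.aemeasurable]
  have step2 : ∀ u, ∫⁻ w, F (u, w) ∂gaussianReal 0 s =
      gaussianPDF 0 v0 u * ∫⁻ w, ENNReal.ofReal |w + k * u| ∂gaussianReal 0 s := by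
    intro u
    simp only [hF]
    rw [lintegral_mul_const _ (by fun_prop), mul_comm]
  simp_rw [step2]
  set G : ℝ → ℝ≥0∞ := fun u => ∫⁻ w, ENNReal.ofReal |w + k * u| ∂gaussianReal 0 s with hG
  have hGm : Measurable G := by
    have : Measurable (fun p : ℝ × ℝ => ENNReal.ofReal |p.2 + k * p.1|) := by fun_prop
    exact this.lintegral_prod_right'
  have hpm := measurable_gaussianPDF 0 v0
  have hαm := measurable_gaussianPDF 0 αn
  rw [gaussianReal_of_var_ne_zero 0 hαn0, lintegral_withDensity_eq_lintegral_mul _ hαm (by fun_prop)]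
  have step3 : ∀ u, (gaussianPDF 0 αn * fun u => gaussianPDF 0 v0 u * G u) u =
      ENNReal.ofReal (1 / Real.sqrt (2 * Real.pi * (v0 + αn))) *
        ((gaussianPDF 0 (v0 * αn / (v0 + αn)) * G) u) := by
    intro u
    simp only [Pi.mul_apply]
    rw [← mul_assoc, pdf_mul v0 αn hv0 hαn0, mul_assoc]
  rw [lintegral_congr step3]
  have hτ0 : (v0 * αn / (v0 + αn) : ℝ≥0) ≠ 0 := by positivity
  have hτm := measurable_gaussianPDF 0 (v0 * αn / (v0 + αn))
  rw [lintegral_const_mul _ (by fun_prop), ← lintegral_withDensity_eq_lintegral_mul _ hτm hGm,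
    ← gaussianReal_of_var_ne_zero 0 hτ0]
  have hA : (0 : ℝ) < v0 + α := by positivity
  have hq0 : 0 ≤ γ - β ^ 2 / (v0 + α) := by
    have h1 : 0 ≤ γ - β ^ 2 / α := by rw [← hs']; exact s.2
    have h2 : β ^ 2 / (v0 + α) ≤ β ^ 2 / α := by
      apply div_le_div_of_nonneg_left (sq_nonneg _) hpos
      have : (0 : ℝ) ≤ v0 := v0.2
      linarith
    linarith
  rw [conv_abs k _ s ⟨γ - β ^ 2 / (v0 + α), hq0⟩, ← mul_assoc, ← ENNReal.ofReal_mul (by positivity)]
  · congr 2
    have h1 : ((v0 : ℝ) + αn) = v0 + α := rfl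
    rw [h1]
    have h2 : Real.sqrt (2 * Real.pi * (v0 + α)) = Real.sqrt (2 * Real.pi) * Real.sqrt (v0 + α) :=
      Real.sqrt_mul (by positivity) _
    have h3 : (v0 + α) * γ - β ^ 2 = (v0 + α) * (γ - β ^ 2 / (v0 + α)) := by field_simp
    have h4 : Real.sqrt ((v0 + α) * (γ - β ^ 2 / (v0 + α))) =
        Real.sqrt (v0 + α) * Real.sqrt (γ - β ^ 2 / (v0 + α)) := Real.sqrt_mul hA.le _
    rw [h2, h3, h4]
    have h5 : Real.sqrt ((v0 : ℝ) + α) * Real.sqrt (v0 + α) = v0 + α := Real.mul_self_sqrt hA.le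
    have h6 : 0 < Real.sqrt ((v0 : ℝ) + α) := Real.sqrt_pos.mpr hA
    have h7 : 0 < Real.sqrt (2 * Real.pi) := by positivity
    change 1 / (Real.sqrt (2 * Real.pi) * Real.sqrt (v0 + α)) * Real.sqrt (γ - β ^ 2 / (v0 + α)) = _
    rw [div_mul_eq_mul_div, one_mul, div_div, div_eq_div_iff (by positivity) (by positivity)]
    calc _ = Real.sqrt (γ - β ^ 2 / (v0 + α)) * (Real.sqrt (2 * Real.pi)) * (v0 + α) := by ring
      _ = Real.sqrt (γ - β ^ 2 / (v0 + α)) * (Real.sqrt (2 * Real.pi)) *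
          (Real.sqrt ((v0 : ℝ) + α) * Real.sqrt (v0 + α)) := by rw [h5]
      _ = _ := by ring
  · change γ - β ^ 2 / (v0 + α) = _
    rw [hs']
    push_cast
    change γ - β ^ 2 / (v0 + α) = k ^ 2 * (v0 * α / (v0 + α)) + (γ - β ^ 2 / α)
    rw [hk]
    field_simp
    ring

end Pool.Agent.Work.MP_a7dd25_pr
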