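import Pool.Agent.Work.MP_a7dd25_pr.Defs

open MeasureTheory Polynomial

namespace Pool.Agent.Work.MP_a7dd25_pr

lemma coeff_kac (n : ℕ) (ω : Fin (n + 1) → ℝ) (k : Fin (n + 1)) : (kac n ω).coeff k = ω k := by
  simp only [kac, finsetSum_coeff, coeff_C_mul, coeff_X_pow]
  rw [Finset.sum_eq_single k]
  · simp
  · intro b _ hb
    have : ¬ ((k : ℕ) = (b : ℕ)) := fun h => hb (Fin.ext h.symm)
    simp [this]
  · intro h; exact absurd (Finset.mem_univ k) h

lemma kac_eq_zero (n : ℕ) (ω : Fin (n + 1) → ℝ) : kac n ω = 0 ↔ ω = 0 := by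
  constructor
  · intro h
    ext k
    rw [← coeff_kac n ω k, h]; simp
  · intro h; subst h; simp [kac]

lemma natDegree_kac_le (n : ℕ) (ω : Fin (n + 1) → ℝ) : (kac n ω).natDegree ≤ n := by
  apply natDegree_sum_le_of_forall_le
  intro i _
  exact (natDegree_C_mul_X_pow_le _ _).trans (Nat.lt_succ_iff.mp i.2)

lemma exists_kac (n : ℕ) (Q : ℝ[X]) (hQ : Q.natDegree ≤ n) :
    ∃ b : Fin (n + 1) → ℝ, kac n b = Q := by
  refine ⟨fun k => Q.coeff k, ?_⟩
  rw [kac]
  conv_rhs => rw [Q.as_sum_range_C_mul_X_pow' (Nat.lt_succ_iff.mpr hQ)]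
  rw [Finset.sum_range]

lemma eval_kac (n : ℕ) (ω : Fin (n + 1) → ℝ) (z : ℝ) :
    (kac n ω).eval z = ∑ k : Fin (n + 1), ω k * z ^ (k : ℕ) := by
  simp [kac, eval_finsetSum]

/-- graph of factorisations -/
def factSet (n m : ℕ) : Set ((Fin (n + 1) → ℝ) × ((Fin m → ℝ) × (Fin (n + 1) → ℝ))) :=
  {p | kac n p.1 = (∏ i, (X - C (p.2.1 i))) * kac n p.2.2}

lemma factSet_closed (n m : ℕ) : IsClosed (factSet n m) := by
  have : factSet n m = ⋂ z : ℝ, {p | (∑ k : Fin (n + 1), p.1 k * z ^ (k : ℕ)) =
      (∏ i, (z - p.2.1 i)) * ∑ k : Fin (n + 1), p.2.2 k * z ^ (k : ℕ)} := by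
    ext p
    simp only [factSet, Set.mem_ofPred_eq, Set.mem_iInter]
    constructor
    · intro h z
      have := congrArg (eval z) h
      rw [eval_kac, eval_mul, eval_kac, eval_prod] at this
      simpa using this
    · intro h
      apply Polynomial.funext
      intro z
      rw [eval_kac, eval_mul, eval_kac, eval_prod, h z]
      simp
  rw [this]
  apply isClosed_iInter
  intro z
  apply isClosed_eq
  · fun_prop
  · fun_prop

lemma fact_measurable (n m : ℕ) : MeasurableSet (Prod.fst '' factSet n m) := by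
  have : factSet n m = ⋃ j : ℕ, (factSet n m ∩ Metric.closedBall 0 (j : ℝ)) := by
    rw [← Set.inter_iUnion]
    have h : (⋃ j : ℕ, Metric.closedBall (0 : (Fin (n + 1) → ℝ) × ((Fin m → ℝ) × (Fin (n + 1) → ℝ))) (j : ℝ)) = Set.univ := by
      ext x
      simp only [Set.mem_iUnion, Metric.mem_closedBall, Set.mem_univ, iff_true]
      exact exists_nat_ge _
    rw [h, Set.inter_univ]
  rw [this, Set.image_iUnion]
  apply MeasurableSet.iUnion
  intro j
  have hc : IsCompact (factSet n m ∩ Metric.closedBall 0 (j : ℝ)) :=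
    (isCompact_closedBall _ _).inter_left (factSet_closed n m)
  exact (hc.image continuous_fst).measurableSet

lemma card_ge_iff (n m : ℕ) (ω : Fin (n + 1) → ℝ) (hω : ω ≠ 0) :
    m ≤ (kac n ω).roots.card ↔ ω ∈ Prod.fst '' factSet n m := by
  have hne : kac n ω ≠ 0 := fun h => hω ((kac_eq_zero n ω).mp h)
  constructor
  · intro hm
    set l : List ℝ := (kac n ω).roots.toList.take m with hl
    have hlen : m = l.length := by
      rw [hl, List.length_take, Multiset.length_toList, min_eq_left hm]
    have hs : (l : Multiset ℝ) ≤ (kac n ω).roots := by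
      conv_rhs => rw [← Multiset.coe_toList (kac n ω).roots]
      rw [Multiset.coe_le]
      exact (List.take_sublist _ _).subperm
    have hdvd : (l.map fun a => X - C a).prod ∣ kac n ω := by
      have h1 := (Multiset.prod_X_sub_C_dvd_iff_le_roots hne (l : Multiset ℝ)).mpr hs
      simpa using h1
    obtain ⟨Q, hQ⟩ := hdvd
    have hQdeg : Q.natDegree ≤ n := by
      have hQ0 : Q ≠ 0 := by rintro rfl; apply hne; rw [hQ, mul_zero]
      have := natDegree_kac_le n ω
      rw [hQ, natDegree_mul (by intro h; apply hne; rw [hQ, h, zero_mul]) hQ0] at this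
      omega
    obtain ⟨b, hb⟩ := exists_kac n Q hQdeg
    refine ⟨(ω, (fun i : Fin m => l.get (i.cast hlen), b)), ?_, rfl⟩
    simp only [factSet, Set.mem_ofPred_eq]
    rw [hb, hQ]
    congr 1
    have : ∀ (l : List ℝ) (k : ℕ) (hk : k = l.length),
        (l.map fun a => X - C a).prod = ∏ i : Fin k, (X - C (l.get (i.cast hk))) := by
      intro l k hk
      subst hk
      rw [← List.prod_ofFn]
      congr 1
      apply List.ext_get
      · simp
      · intro i h1 h2
        simp
    exact this l _ hlen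
  · rintro ⟨⟨ω', x, b⟩, hp, rfl⟩
    simp only [factSet, Set.mem_ofPred_eq] at hp
    change m ≤ (kac n ω').roots.card
    change ω' ≠ 0 at hω
    change kac n ω' ≠ 0 at hne
    rw [hp] at hne ⊢
    have h1 : (∏ i, (X - C (x i))).roots = Finset.univ.val.map x := by
      have := roots_multiset_prod_X_sub_C (Finset.univ.val.map x)
      rw [Multiset.map_map] at this
      exact this
    rw [roots_mul hne, Multiset.card_add, h1]
    simp

lemma measurable_card (n : ℕ) : Measurable (fun ω : Fin (n + 1) → ℝ => (kac n ω).roots.card) := by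
  apply measurable_of_Ici
  intro m
  have h0 : MeasurableSet ({0} : Set (Fin (n + 1) → ℝ)) := measurableSet_singleton 0
  have : (fun ω : Fin (n + 1) → ℝ => (kac n ω).roots.card) ⁻¹' Set.Ici m =
      (Prod.fst '' factSet n m ∩ {0}ᶜ) ∪ (if m = 0 then {0} else ∅) := by
    ext ω
    simp only [Set.mem_preimage, Set.mem_Ici, Set.mem_union, Set.mem_inter_iff, Set.mem_compl_iff,
      Set.mem_singleton_iff]
    by_cases hω : ω = 0
    · subst hω
      have : (kac n 0) = 0 := (kac_eq_zero n 0).mpr rfl
      rw [this]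
      by_cases hm : m = 0
      · simp [hm]
      · simp [hm]
    · rw [card_ge_iff n m ω hω]
      by_cases hm : m = 0
      · simp [hm, hω]
      · simp [hm, hω]
  rw [this]
  apply MeasurableSet.union
  · exact (fact_measurable n m).inter h0.compl
  · split_ifs
    · exact h0
    · exact MeasurableSet.empty

end Pool.Agent.Work.MP_a7dd25_pr
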