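import Pool.Agent.Work.MP_a7dd25_pr.Area
import Pool.Agent.Work.MP_a7dd25_pr.Gauss
import Pool.Agent.Work.MP_a7dd25_pr.Meas

open MeasureTheory ProbabilityTheory Polynomial
open scoped NNReal ENNReal

namespace Pool.Agent.Work.MP_a7dd25_pr

/-- the polynomial without its constant term -/
noncomputable def tailPoly (N : ℕ) (r : Fin N → ℝ) : ℝ[X] := ∑ k : Fin N, C (r k) * X ^ ((k : ℕ) + 1)

lemma kac_cons (N : ℕ) (a : ℝ) (r : Fin N → ℝ) :
    kac N (Fin.cons a r) = tailPoly N r - C (-a) := by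
  simp [kac, tailPoly, Fin.sum_univ_succ, add_comm]

lemma eval_tailPoly (N : ℕ) (r : Fin N → ℝ) (x : ℝ) :
    (tailPoly N r).eval x = lin (fun k : Fin N => x ^ ((k : ℕ) + 1)) r := by
  simp only [tailPoly, eval_finsetSum, lin_apply, eval_mul, eval_C, eval_pow, eval_X]
  exact Finset.sum_congr rfl fun k _ => mul_comm _ _

lemma eval_deriv_tailPoly (N : ℕ) (r : Fin N → ℝ) (x : ℝ) :
    (tailPoly N r).derivative.eval x = lin (fun k : Fin N => ((k : ℕ) + 1 : ℝ) * x ^ (k : ℕ)) r := by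
  simp only [tailPoly, derivative_sum, eval_finsetSum, lin_apply, derivative_C_mul, derivative_X_pow]
  refine Finset.sum_congr rfl fun k _ => ?_
  simp
  ring

lemma inner_formula (N : ℕ) (v0 : ℝ≥0) (hv0 : v0 ≠ 0) (r : Fin N → ℝ) (hr : (tailPoly N r).derivative ≠ 0) :
    ∫⁻ a, ((((kac N (Fin.cons a r)).roots.card : ℕ)) : ℝ≥0∞) ∂gaussianReal 0 v0 =
      ∫⁻ x, ENNReal.ofReal |(tailPoly N r).derivative.eval x| * gaussianPDF 0 v0 ((tailPoly N r).eval x) := by
  rw [area_formula _ hr _ (measurable_gaussianPDF 0 v0), gaussianReal_of_var_ne_zero 0 hv0,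
    lintegral_withDensity_eq_lintegral_mul₀' (measurable_gaussianPDF 0 v0).aemeasurable]
  · rw [← lintegral_neg_eq_self (fun y => gaussianPDF 0 v0 y * (((tailPoly N r - C y).roots.card : ℕ) : ℝ≥0∞))]
    refine lintegral_congr fun a => ?_
    simp only [Pi.mul_apply]
    rw [kac_cons]
    congr 1
    simp [gaussianPDF, gaussianPDFReal]
  · apply Measurable.aemeasurable
    have h1 : Measurable (fun a : ℝ => (Fin.cons a r : Fin (N + 1) → ℝ)) := by
      rw [measurable_pi_iff]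
      intro i
      refine Fin.cases ?_ (fun j => ?_) i
      · simpa using measurable_id'
      · simp
    have h2 : Measurable (fun m : ℕ => (m : ℝ≥0∞)) := measurable_from_top
    exact h2.comp ((measurable_card N).comp h1)

/-- second moment sums -/
noncomputable def MM (j N : ℕ) (v : Fin (N + 1) → ℝ) (t : ℝ) : ℝ :=
  ∑ k : Fin (N + 1), ((k : ℕ) : ℝ) ^ j * (v k * Real.exp (-(2 * (k : ℕ) * t)))

/-- standard deviation of the index under the weights `v k * exp (-2 k t)`. -/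
noncomputable def sdv (N : ℕ) (v : Fin (N + 1) → ℝ) (t : ℝ) : ℝ :=
  Real.sqrt (MM 0 N v t * MM 2 N v t - MM 1 N v t ^ 2) / MM 0 N v t

noncomputable def rho (N : ℕ) (v : Fin (N + 1) → ℝ) (x : ℝ) : ℝ :=
  Real.sqrt ((∑ k : Fin (N + 1), v k * x ^ (2 * (k : ℕ))) * (∑ k : Fin (N + 1), v k * (((k : ℕ) : ℝ) * x ^ ((k : ℕ) - 1)) ^ 2)
    - (∑ k : Fin (N + 1), v k * x ^ (k : ℕ) * (((k : ℕ) : ℝ) * x ^ ((k : ℕ) - 1))) ^ 2) /
    (∑ k : Fin (N + 1), v k * x ^ (2 * (k : ℕ)))

lemma kac_rice_x (N : ℕ) (hN : 1 ≤ N) (v : Fin (N + 1) → ℝ≥0) (hv : ∀ i, v i ≠ 0) :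
    ∫⁻ ω, (((kac N ω).roots.card : ℕ) : ℝ≥0∞) ∂(Measure.pi fun i => gaussianReal 0 (v i)) =
      K₁ * ENNReal.ofReal (1 / Real.sqrt (2 * Real.pi)) * ∫⁻ x, ENNReal.ofReal (rho N (fun i => v i) x) := by
  have hmcard : Measurable (fun ω : Fin (N + 1) → ℝ => (((kac N ω).roots.card : ℕ) : ℝ≥0∞)) := by
    have h2 : Measurable (fun m : ℕ => (m : ℝ≥0∞)) := measurable_from_top
    exact h2.comp (measurable_card N)
  have hmp := measurePreserving_piFinSuccAbove (fun i : Fin (N + 1) => gaussianReal 0 (v i)) 0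
  set P' : Measure (Fin N → ℝ) := Measure.pi fun j : Fin N => gaussianReal 0 (v j.succ) with hP'
  have hstep1 : ∫⁻ ω, (((kac N ω).roots.card : ℕ) : ℝ≥0∞) ∂(Measure.pi fun i => gaussianReal 0 (v i)) =
      ∫⁻ z, (((kac N (Fin.cons z.1 z.2)).roots.card : ℕ) : ℝ≥0∞) ∂((gaussianReal 0 (v 0)).prod P') := by
    have := hmp.symm.lintegral_comp hmcard
    rw [← this]
    have hP : (gaussianReal 0 (v 0)).prod P' = (gaussianReal 0 (v 0)).prod
        (Measure.pi fun j : Fin N => gaussianReal 0 (v ((0 : Fin (N + 1)).succAbove j))) := by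
      rw [hP']; simp
    rw [hP]
    refine lintegral_congr fun z => ?_
    congr 4
    simp [MeasurableEquiv.piFinSuccAbove, Fin.insertNthEquiv]
  have hmeas2 : Measurable (fun z : ℝ × (Fin N → ℝ) => (((kac N (Fin.cons z.1 z.2)).roots.card : ℕ) : ℝ≥0∞)) := by
    apply hmcard.comp (f := fun z : ℝ × (Fin N → ℝ) => (Fin.cons z.1 z.2 : Fin (N + 1) → ℝ))
    rw [measurable_pi_iff]
    intro i
    refine Fin.cases ?_ (fun j => ?_) i
    · simp only [Fin.cons_zero]; exact measurable_fst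
    · simp only [Fin.cons_succ]; fun_prop
  rw [hstep1, lintegral_prod_symm' _ hmeas2]
  -- inner integral
  have hae : ∀ᵐ r ∂P', (tailPoly N r).derivative ≠ 0 := by
    obtain ⟨M, rfl⟩ : ∃ M, N = M + 1 := ⟨N - 1, by omega⟩
    have h0 : ∀ᵐ r ∂P', r 0 ≠ 0 := by
      have hmap : P'.map (fun r => r 0) = gaussianReal 0 (v 1) := pi_coord_law (fun j : Fin (M + 1) => v j.succ) 0
      have hnull : gaussianReal 0 (v 1) {0} = 0 := by
        have := nullSingletonClass_gaussianReal (μ := 0) (hv 1)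
        exact measure_singleton 0
      rw [← hmap, Measure.map_apply (measurable_pi_apply 0) (measurableSet_singleton 0)] at hnull
      rw [ae_iff]
      convert hnull using 2
      ext r; simp
    filter_upwards [h0] with r hr h
    apply hr
    have := eval_deriv_tailPoly (M + 1) r 0
    rw [h, lin_apply, Fin.sum_univ_succ] at this
    simp at this
    exact this.symm
  have hstep2 : ∫⁻ r, ∫⁻ a, (((kac N (Fin.cons a r)).roots.card : ℕ) : ℝ≥0∞) ∂gaussianReal 0 (v 0) ∂P' =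
      ∫⁻ r, (∫⁻ x, ENNReal.ofReal |(tailPoly N r).derivative.eval x| * gaussianPDF 0 (v 0) ((tailPoly N r).eval x)) ∂P' := by
    apply lintegral_congr_ae
    filter_upwards [hae] with r hr
    exact inner_formula N (v 0) (hv 0) r hr
  rw [hstep2, lintegral_lintegral_swap]
  · have hx0 : ∀ᵐ x : ℝ, x ≠ 0 := by
      have : (volume : Measure ℝ) {0} = 0 := measure_singleton 0
      rw [ae_iff]; simpa using this
    have hmrho : Measurable fun x => ENNReal.ofReal (rho N (fun i => v i) x) := by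
      unfold rho
      fun_prop
    rw [mul_assoc, ← lintegral_const_mul _ hmrho, ← lintegral_const_mul _ (by fun_prop)]
    apply lintegral_congr_ae
    filter_upwards [hx0] with x hx
    simp_rw [eval_tailPoly, eval_deriv_tailPoly]
    have hpos : 0 < ∑ k : Fin N, x ^ ((k : ℕ) + 1) * x ^ ((k : ℕ) + 1) * (v k.succ : ℝ) := by
      apply Finset.sum_pos
      · intro k _
        have h1 : 0 < x ^ ((k : ℕ) + 1) * x ^ ((k : ℕ) + 1) :=
          mul_self_pos.mpr (pow_ne_zero _ hx)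
        have h2 : (0 : ℝ) < v k.succ := by
          have := hv k.succ
          positivity
        positivity
      · exact ⟨⟨0, by omega⟩, Finset.mem_univ _⟩
    rw [gauss_expectation (fun k : Fin N => v k.succ) _ _ (v 0) (hv 0) _ _ _ rfl rfl rfl hpos]
    rw [mul_comm, ← ENNReal.ofReal_mul (by positivity)]
    congr 2
    rw [rho, one_div, div_eq_mul_inv _ (Real.sqrt (2 * Real.pi)), mul_comm]
    congr 1
    have hA : (v 0 : ℝ) + ∑ k : Fin N, x ^ ((k : ℕ) + 1) * x ^ ((k : ℕ) + 1) * (v k.succ : ℝ) =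
        ∑ k : Fin (N + 1), (v k : ℝ) * x ^ (2 * (k : ℕ)) := by
      rw [Fin.sum_univ_succ]
      simp only [Fin.val_zero, mul_zero, pow_zero, mul_one, Fin.val_succ]
      congr 1
      refine Finset.sum_congr rfl fun k _ => ?_
      ring
    have hB : ∑ k : Fin N, x ^ ((k : ℕ) + 1) * ((((k : ℕ) : ℝ) + 1) * x ^ (k : ℕ)) * (v k.succ : ℝ) =
        ∑ k : Fin (N + 1), (v k : ℝ) * x ^ (k : ℕ) * (((k : ℕ) : ℝ) * x ^ ((k : ℕ) - 1)) := by
      rw [Fin.sum_univ_succ]
      simp only [Fin.val_zero, Nat.cast_zero, zero_mul, mul_zero, zero_add, Fin.val_succ]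
      refine Finset.sum_congr rfl fun k _ => ?_
      push_cast
      ring
    have hC : ∑ k : Fin N, ((((k : ℕ) : ℝ) + 1) * x ^ (k : ℕ)) * ((((k : ℕ) : ℝ) + 1) * x ^ (k : ℕ)) * (v k.succ : ℝ) =
        ∑ k : Fin (N + 1), (v k : ℝ) * (((k : ℕ) : ℝ) * x ^ ((k : ℕ) - 1)) ^ 2 := by
      rw [Fin.sum_univ_succ]
      simp only [Fin.val_zero, Nat.cast_zero, zero_mul, mul_zero, zero_add, Fin.val_succ,
        ne_eq, OfNat.ofNat_ne_zero, not_false_eq_true, zero_pow]
      refine Finset.sum_congr rfl fun k _ => ?_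
      push_cast
      ring
    rw [hA, hB, hC]
  · apply Measurable.aemeasurable
    have h1 : Measurable (fun z : (Fin N → ℝ) × ℝ => (tailPoly N z.1).eval z.2) := by
      simp_rw [eval_tailPoly, lin_apply]
      fun_prop
    have h2 : Measurable (fun z : (Fin N → ℝ) × ℝ => (tailPoly N z.1).derivative.eval z.2) := by
      simp_rw [eval_deriv_tailPoly, lin_apply]
      fun_prop
    have h3 := measurable_gaussianPDF 0 (v 0)
    exact (ENNReal.measurable_ofReal.comp (h2.abs)).mul (h3.comp h1)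

lemma MM0_pos (N : ℕ) (v : Fin (N + 1) → ℝ) (hv : ∀ i, 0 < v i) (t : ℝ) : 0 < MM 0 N v t := by
  unfold MM
  apply Finset.sum_pos
  · intro k _
    have := hv k
    rw [pow_zero, one_mul]
    positivity
  · exact Finset.univ_nonempty

lemma rho_exp (N : ℕ) (v : Fin (N + 1) → ℝ) (t : ℝ) (s : ℝ) (hs : s ^ 2 = 1) :
    rho N v (s * Real.exp (-t)) = Real.exp t * sdv N v t := by
  have hs2 : ∀ k : ℕ, s ^ (2 * k) = 1 := fun k => by rw [pow_mul, hs, one_pow]
  have e0 : ∑ k : Fin (N + 1), v k * (s * Real.exp (-t)) ^ (2 * (k : ℕ)) = MM 0 N v t := by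
    unfold MM
    refine Finset.sum_congr rfl fun k _ => ?_
    rw [mul_pow, hs2, one_mul, pow_zero, one_mul, ← Real.exp_nat_mul]
    congr 2; push_cast; ring
  have e1 : ∑ k : Fin (N + 1), v k * (s * Real.exp (-t)) ^ (k : ℕ) *
      (((k : ℕ) : ℝ) * (s * Real.exp (-t)) ^ ((k : ℕ) - 1)) = s * Real.exp t * MM 1 N v t := by
    unfold MM
    rw [Finset.mul_sum]
    refine Finset.sum_congr rfl fun k _ => ?_
    rcases Nat.eq_zero_or_pos (k : ℕ) with h | h
    · rw [h]; simp
    · obtain ⟨j, hj⟩ : ∃ j, (k : ℕ) = j + 1 := ⟨(k : ℕ) - 1, by omega⟩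
      rw [hj, Nat.add_sub_cancel]
      have h1 : (s * Real.exp (-t)) ^ (j + 1) * (s * Real.exp (-t)) ^ j =
          s * Real.exp t * Real.exp (-(2 * ((j + 1 : ℕ) : ℝ) * t)) := by
        have : s * Real.exp t * Real.exp (-(2 * ((j + 1 : ℕ) : ℝ) * t)) = s * (Real.exp (-t)) ^ (2 * j + 1) := by
          rw [mul_assoc, ← Real.exp_add, ← Real.exp_nat_mul]
          congr 2; push_cast; ring
        rw [this]
        have h3 := hs2 j
        calc _ = s * (s ^ (2 * j)) * (Real.exp (-t)) ^ (2 * j + 1) := by ring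
          _ = _ := by rw [h3, mul_one]
      calc _ = v k * ((j + 1 : ℕ) : ℝ) * ((s * Real.exp (-t)) ^ (j + 1) * (s * Real.exp (-t)) ^ j) := by ring
        _ = _ := by rw [h1]; ring
  have e2 : ∑ k : Fin (N + 1), v k * (((k : ℕ) : ℝ) * (s * Real.exp (-t)) ^ ((k : ℕ) - 1)) ^ 2 =
      Real.exp t ^ 2 * MM 2 N v t := by
    unfold MM
    rw [Finset.mul_sum]
    refine Finset.sum_congr rfl fun k _ => ?_
    rcases Nat.eq_zero_or_pos (k : ℕ) with h | h
    · rw [h]; simp
    · obtain ⟨j, hj⟩ : ∃ j, (k : ℕ) = j + 1 := ⟨(k : ℕ) - 1, by omega⟩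
      rw [hj, Nat.add_sub_cancel]
      have h1 : ((s * Real.exp (-t)) ^ j) ^ 2 = Real.exp t ^ 2 * Real.exp (-(2 * ((j + 1 : ℕ) : ℝ) * t)) := by
        rw [← pow_mul, mul_comm j 2, mul_pow, hs2, one_mul, ← Real.exp_nat_mul, ← Real.exp_nat_mul, ← Real.exp_add]
        congr 1; push_cast; ring
      calc _ = v k * ((j + 1 : ℕ) : ℝ) ^ 2 * ((s * Real.exp (-t)) ^ j) ^ 2 := by ring
        _ = _ := by rw [h1]; ring
  rw [rho, e0, e1, e2, sdv]
  have h1 : MM 0 N v t * (Real.exp t ^ 2 * MM 2 N v t) - (s * Real.exp t * MM 1 N v t) ^ 2 =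
      Real.exp t ^ 2 * (MM 0 N v t * MM 2 N v t - MM 1 N v t ^ 2) := by
    calc _ = Real.exp t ^ 2 * (MM 0 N v t * MM 2 N v t) - s ^ 2 * (Real.exp t ^ 2 * MM 1 N v t ^ 2) := by ring
      _ = _ := by rw [hs]; ring
  rw [h1, Real.sqrt_mul (by positivity), Real.sqrt_sq (Real.exp_pos t).le, mul_div_assoc]

lemma lintegral_exp_change (f : ℝ → ℝ≥0∞) :
    ∫⁻ x in Set.Ioi (0 : ℝ), f x = ∫⁻ t, ENNReal.ofReal (Real.exp (-t)) * f (Real.exp (-t)) := by
  have himg : (fun t : ℝ => Real.exp (-t)) '' Set.univ = Set.Ioi 0 := by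
    ext x
    simp only [Set.image_univ, Set.mem_range, Set.mem_Ioi]
    constructor
    · rintro ⟨t, rfl⟩; exact Real.exp_pos _
    · intro hx; exact ⟨-Real.log x, by rw [neg_neg, Real.exp_log hx]⟩
  rw [← himg, lintegral_image_eq_lintegral_abs_deriv_mul MeasurableSet.univ
    (f' := fun t => -Real.exp (-t))]
  · rw [Measure.restrict_univ]
    refine lintegral_congr fun t => ?_
    rw [abs_neg, abs_of_pos (Real.exp_pos _)]
  · intro t _
    have h : HasDerivAt (fun t : ℝ => Real.exp (-t)) (-Real.exp (-t)) t := by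
      have := (hasDerivAt_neg t).exp
      simpa using this
    exact h.hasDerivWithinAt
  · intro a _ b _ h
    have := Real.exp_injective h
    linarith

lemma lintegral_rho (N : ℕ) (v : Fin (N + 1) → ℝ) :
    ∫⁻ x, ENNReal.ofReal (rho N v x) = 2 * ∫⁻ t, ENNReal.ofReal (sdv N v t) := by
  have hm : Measurable fun x => ENNReal.ofReal (rho N v x) := by
    unfold rho; fun_prop
  have hsplit : ∫⁻ x, ENNReal.ofReal (rho N v x) =
      (∫⁻ x in Set.Ioi 0, ENNReal.ofReal (rho N v x)) + ∫⁻ x in Set.Iic 0, ENNReal.ofReal (rho N v x) := by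
    rw [← lintegral_add_compl _ (measurableSet_Ioi (a := (0 : ℝ))), Set.compl_Ioi]
  have hneg : ∫⁻ x in Set.Iic 0, ENNReal.ofReal (rho N v x) = ∫⁻ x in Set.Ioi 0, ENNReal.ofReal (rho N v (-x)) := by
    rw [← lintegral_indicator measurableSet_Iic, ← lintegral_indicator measurableSet_Ioi,
      ← lintegral_neg_eq_self]
    apply lintegral_congr_ae
    have hx0 : ∀ᵐ x : ℝ, x ≠ 0 := by
      have : (volume : Measure ℝ) {0} = 0 := measure_singleton 0
      rw [ae_iff]; simpa using this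
    filter_upwards [hx0] with x hx
    by_cases h : 0 < x
    · rw [Set.indicator_of_mem (by simpa using h.le), Set.indicator_of_mem (by simpa using h)]
    · have hlt : x < 0 := lt_of_le_of_ne (not_lt.mp h) hx
      rw [Set.indicator_of_notMem (by simpa using hlt), Set.indicator_of_notMem (by simpa using hlt.le)]
  rw [hsplit, hneg, lintegral_exp_change, lintegral_exp_change, two_mul]
  have key : ∀ s : ℝ, s ^ 2 = 1 → ∀ t : ℝ, ENNReal.ofReal (Real.exp (-t)) * ENNReal.ofReal (rho N v (s * Real.exp (-t))) =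
      ENNReal.ofReal (sdv N v t) := by
    intro s hs t
    rw [rho_exp N v t s hs, ← ENNReal.ofReal_mul (Real.exp_pos _).le, ← mul_assoc, ← Real.exp_add]
    simp
  congr 1
  · refine lintegral_congr fun t => ?_
    have := key 1 (by norm_num) t
    rwa [one_mul] at this
  · refine lintegral_congr fun t => ?_
    have := key (-1) (by norm_num) t
    rwa [neg_one_mul] at this

/-- Kac-Rice formula in logarithmic coordinates. -/
theorem kac_rice (N : ℕ) (hN : 1 ≤ N) (v : Fin (N + 1) → ℝ≥0) (hv : ∀ i, v i ≠ 0) :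
    ∫⁻ ω, (((kac N ω).roots.card : ℕ) : ℝ≥0∞) ∂(Measure.pi fun i => gaussianReal 0 (v i)) =
      K₁ * ENNReal.ofReal (1 / Real.sqrt (2 * Real.pi)) *
        (2 * ∫⁻ t, ENNReal.ofReal (sdv N (fun i => v i) t)) := by
  rw [kac_rice_x N hN v hv, lintegral_rho]

end Pool.Agent.Work.MP_a7dd25_pr
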