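import Pool.Agent.Work.MP_a7dd25_pr.Upper

open MeasureTheory Set Filter Topology
open scoped NNReal ENNReal

namespace Pool.Agent.Work.MP_a7dd25_pr

lemma geo0 (r : ℝ) (n : ℕ) : (1 - r) * ∑ k ∈ Finset.range n, r ^ k = 1 - r ^ n := by
  rw [mul_comm, geom_sum_mul_neg]

lemma geo1 (r : ℝ) (n : ℕ) : (1 - r) * ∑ k ∈ Finset.range n, (k : ℝ) * r ^ k =
    r * (∑ k ∈ Finset.range n, r ^ k) - n * r ^ n := by
  induction n with
  | zero => simp
  | succ n ih =>
    rw [Finset.sum_range_succ, mul_add, ih, Finset.sum_range_succ]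
    push_cast
    ring

lemma geo2 (r : ℝ) (n : ℕ) : (1 - r) * ∑ k ∈ Finset.range n, (k : ℝ) ^ 2 * r ^ k =
    r * (∑ k ∈ Finset.range n, r ^ k) + 2 * r * (∑ k ∈ Finset.range n, (k : ℝ) * r ^ k) - n ^ 2 * r ^ n := by
  induction n with
  | zero => simp
  | succ n ih =>
    rw [Finset.sum_range_succ, mul_add, ih, Finset.sum_range_succ, Finset.sum_range_succ]
    push_cast
    ring

lemma MM_one (j N : ℕ) (t : ℝ) : MM j N (fun _ => 1) t =
    ∑ k ∈ Finset.range (N + 1), (k : ℝ) ^ j * (Real.exp (-(2 * t))) ^ k := by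
  unfold MM
  rw [Finset.sum_range]
  refine Finset.sum_congr rfl fun k _ => ?_
  rw [one_mul, ← Real.exp_nat_mul]
  congr 2; ring

lemma var_one_le (N : ℕ) (t : ℝ) (ht : 0 < t) :
    (MM 0 N (fun _ => 1) t * MM 2 N (fun _ => 1) t - MM 1 N (fun _ => 1) t ^ 2) * (4 * t ^ 2) ≤
      MM 0 N (fun _ => 1) t ^ 2 := by
  set r := Real.exp (-(2 * t)) with hr
  have hr1 : r < 1 := by rw [hr, Real.exp_lt_one_iff]; linarith
  have hr0 : 0 < r := Real.exp_pos _
  have h0 := geo0 r (N + 1)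
  have h1 := geo1 r (N + 1)
  have h2 := geo2 r (N + 1)
  set M0 := ∑ k ∈ Finset.range (N + 1), r ^ k with hM0
  set M1 := ∑ k ∈ Finset.range (N + 1), (k : ℝ) * r ^ k with hM1
  set M2 := ∑ k ∈ Finset.range (N + 1), (k : ℝ) ^ 2 * r ^ k with hM2
  have e0 : MM 0 N (fun _ => 1) t = M0 := by rw [MM_one]; simp [hM0, hr]
  have e1 : MM 1 N (fun _ => 1) t = M1 := by rw [MM_one]; simp [hM1, hr]
  have e2 : MM 2 N (fun _ => 1) t = M2 := by rw [MM_one]
  rw [e0, e1, e2]
  set n : ℝ := ((N + 1 : ℕ) : ℝ) with hn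
  have key : (1 - r) ^ 2 * (M0 * M2 - M1 ^ 2) = r * M0 ^ 2 - n ^ 2 * r ^ (N + 1) := by
    calc (1 - r) ^ 2 * (M0 * M2 - M1 ^ 2) = ((1 - r) * M0) * ((1 - r) * M2) - ((1 - r) * M1) ^ 2 := by ring
      _ = ((1 - r) * M0) * (r * M0 + 2 * r * M1 - n ^ 2 * r ^ (N + 1)) - ((1 - r) * M1) * ((1 - r) * M1) := by rw [h2]; ring
      _ = M0 * ((1 - r) * r * M0 + 2 * r * ((1 - r) * M1)) - ((1 - r) * M0) * (n ^ 2 * r ^ (N + 1)) - ((1 - r) * M1) * ((1 - r) * M1) := by ring
      _ = r * M0 ^ 2 - n ^ 2 * r ^ (N + 1) := by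
        rw [h1, h0]
        have : (1 - r) * r * M0 = r * ((1 - r) * M0) := by ring
        rw [this, h0]
        have h5 : r * M0 * (1 - r) = r * (1 - r ^ (N + 1)) := by rw [← h0]; ring
        linear_combination (-M0 + 0 * n) * h5 + 0 * h0
  have hsinh : t ≤ Real.sinh t := Real.self_le_sinh_iff.mpr ht.le
  have hexp : 4 * t ^ 2 * r ≤ (1 - r) ^ 2 := by
    have e3 : r = Real.exp (-t) ^ 2 := by rw [hr, ← Real.exp_nat_mul]; congr 1; push_cast; ring
    have e4 : 1 - r = 2 * Real.sinh t * Real.exp (-t) := by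
      rw [Real.sinh_eq, hr]
      have : Real.exp t * Real.exp (-t) = 1 := by rw [← Real.exp_add]; simp
      have h6 : Real.exp (-(2 * t)) = Real.exp (-t) * Real.exp (-t) := by rw [← Real.exp_add]; congr 1; ring
      rw [h6]
      linear_combination -this
    rw [e4, e3]
    have h7 : t ^ 2 ≤ Real.sinh t ^ 2 := pow_le_pow_left₀ ht.le hsinh 2
    have h8 : 0 ≤ Real.exp (-t) ^ 2 := by positivity
    nlinarith
  have hM0pos : 0 ≤ M0 ^ 2 := sq_nonneg _
  have h1r : 0 < (1 - r) ^ 2 := by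
    have : 0 < 1 - r := by linarith
    positivity
  have hmain : (1 - r) ^ 2 * ((M0 * M2 - M1 ^ 2) * (4 * t ^ 2)) ≤ (1 - r) ^ 2 * M0 ^ 2 := by
    calc (1 - r) ^ 2 * ((M0 * M2 - M1 ^ 2) * (4 * t ^ 2)) = (r * M0 ^ 2 - n ^ 2 * r ^ (N + 1)) * (4 * t ^ 2) := by
          rw [← key]; ring
      _ ≤ (r * M0 ^ 2) * (4 * t ^ 2) := by
          apply mul_le_mul_of_nonneg_right
          · have : 0 ≤ n ^ 2 * r ^ (N + 1) := by positivity
            linarith
          · positivity
      _ = (4 * t ^ 2 * r) * M0 ^ 2 := by ring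
      _ ≤ _ := mul_le_mul_of_nonneg_right hexp hM0pos
  exact le_of_mul_le_mul_left hmain h1r

lemma geo_half (r : ℝ) (hr0 : 0 ≤ r) (hr : r ≤ 1 / 2) (n : ℕ) : ∑ k ∈ Finset.range n, r ^ k ≤ 2 := by
  refine (geo_le r hr0 (by linarith) n).trans ?_
  rw [div_le_iff₀ (by linarith)]
  linarith

lemma lower_X (N : ℕ) (hN : 1 ≤ N) :
    ENNReal.ofReal ((1 / 2) * Real.log (N + 1) - 7 / 2) ≤ XX N (fun _ => 1) := by
  have hpos : ∀ k : Fin (N + 1), (0 : ℝ) < (fun _ => (1 : ℝ)) k := fun _ => one_pos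
  set v : Fin (N + 1) → ℝ := fun _ => 1 with hv
  have hNpos : (0 : ℝ) < N := by positivity
  have hN1 : (1 : ℝ) ≤ N := by exact_mod_cast hN
  have ha : (0 : ℝ) < 1 / N := by positivity
  have hab : 1 / (N : ℝ) ≤ 1 := by rw [div_le_one hNpos]; exact hN1
  set g : ℝ → ℝ := fun t => 2 * (t * ((MM 0 N v t * MM 2 N v t - MM 1 N v t ^ 2) / MM 0 N v t ^ 2)) with hg
  have hgcont : Continuous g := by
    have c0 := MM_continuous 0 N v
    have c1 := MM_continuous 1 N v
    have c2 := MM_continuous 2 N v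
    have hne : ∀ t, MM 0 N v t ^ 2 ≠ 0 := fun t => by
      have := MM0_pos N v hpos t
      positivity
    simp only [hg]
    fun_prop (disch := exact hne _)
  have hFTC : ∫ t in (1 / (N : ℝ))..1, g t = 2 * GG N v 1 - 2 * GG N v (1 / N) := by
    have hd : ∀ t ∈ uIcc (1 / (N : ℝ)) 1, HasDerivAt (fun t => 2 * GG N v t) (g t) t := fun t _ =>
      (GG_hasDerivAt N v hpos t).const_mul 2
    rw [intervalIntegral.integral_eq_sub_of_hasDerivAt hd (hgcont.intervalIntegrable _ _)]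
  have hle : ∀ t ∈ Ioc (1 / (N : ℝ)) 1, g t ≤ sdv N v t := by
    intro t ht
    have htpos : 0 < t := lt_trans ha ht.1
    have h0 := MM0_pos N v hpos t
    have h1 := disc_nonneg N v hpos t
    have h2 : sdv N v t ^ 2 = (MM 0 N v t * MM 2 N v t - MM 1 N v t ^ 2) / MM 0 N v t ^ 2 := by
      rw [sdv, div_pow, Real.sq_sqrt h1]
    have h3 := var_one_le N t htpos
    have h4 : sdv N v t ^ 2 * (4 * t ^ 2) ≤ 1 := by
      rw [h2, div_mul_eq_mul_div, div_le_one (by positivity)]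
      exact h3
    have h5 := sdv_nonneg N v hpos t
    have h6 : 2 * t * sdv N v t ≤ 1 := by
      have : (2 * t * sdv N v t) ^ 2 ≤ 1 ^ 2 := by nlinarith
      exact le_of_sq_le_sq this (by norm_num)
    simp only [hg]
    rw [← h2]
    nlinarith
  have hgnonneg : ∀ t ∈ Ioc (1 / (N : ℝ)) 1, 0 ≤ g t := by
    intro t ht
    have htpos : 0 < t := lt_trans ha ht.1
    have h1 := disc_nonneg N v hpos t
    simp only [hg]
    positivity
  have hval : (1 / 2) * Real.log (N + 1) - 7 / 2 ≤ 2 * GG N v 1 - 2 * GG N v (1 / N) := by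
    have h01 := MM0_pos N v hpos 1
    have h0a := MM0_pos N v hpos (1 / N)
    have hr1 : Real.exp (-1) ≤ 1 / 2 := by
      rw [Real.exp_neg, inv_eq_one_div]
      apply one_div_le_one_div_of_le (by norm_num)
      have := Real.add_one_le_exp (1 : ℝ)
      linarith
    have hr2 : Real.exp (-(2 * 1)) ≤ 1 / 2 := by
      refine le_trans (Real.exp_le_exp.mpr (by norm_num)) hr1
    have e1 : MM 0 N v 1 ≤ 2 := by
      rw [hv, MM_one]
      have : ∑ k ∈ Finset.range (N + 1), (k : ℝ) ^ 0 * (Real.exp (-(2 * 1))) ^ k =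
          ∑ k ∈ Finset.range (N + 1), (Real.exp (-(2 * 1))) ^ k := by simp
      rw [this]
      exact geo_half _ (Real.exp_pos _).le hr2 _
    have e1' : 1 ≤ MM 0 N v 1 := by
      rw [hv, MM_one]
      have h5 := Finset.single_le_sum (f := fun k : ℕ => (k : ℝ) ^ 0 * (Real.exp (-(2 * 1))) ^ k)
        (s := Finset.range (N + 1)) (fun i _ => by positivity) (Finset.mem_range.mpr (Nat.succ_pos N))
      simpa using h5
    have e2 : MM 1 N v 1 ≤ 2 := by
      rw [hv, MM_one]
      have : ∑ k ∈ Finset.range (N + 1), (k : ℝ) ^ 1 * (Real.exp (-(2 * 1))) ^ k ≤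
          ∑ k ∈ Finset.range (N + 1), (Real.exp (-1)) ^ k := by
        apply Finset.sum_le_sum
        intro k _
        rw [pow_one, ← Real.exp_nat_mul, ← Real.exp_nat_mul]
        have h5 : (k : ℝ) ≤ Real.exp k := by have := Real.add_one_le_exp (k : ℝ); linarith
        calc (k : ℝ) * Real.exp (k * -(2 * 1)) ≤ Real.exp k * Real.exp (k * -(2 * 1)) :=
              mul_le_mul_of_nonneg_right h5 (Real.exp_pos _).le
          _ = Real.exp (k * -1) := by rw [← Real.exp_add]; congr 1; ring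
      exact this.trans (geo_half _ (Real.exp_pos _).le hr1 _)
    have e3 : MM 1 N v 1 / MM 0 N v 1 ≤ 2 := by
      rw [div_le_iff₀ h01]; linarith
    have e4 : Real.log (MM 0 N v 1) ≤ 1 := by
      have := Real.log_le_sub_one_of_pos h01
      linarith
    have e5 : Real.log (N + 1) - 2 ≤ Real.log (MM 0 N v (1 / N)) := by
      have h6 : ((N : ℝ) + 1) * Real.exp (-2) ≤ MM 0 N v (1 / N) := by
        unfold MM
        have : ((N : ℝ) + 1) * Real.exp (-2) = ∑ k : Fin (N + 1), Real.exp (-2) := by simp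
        rw [this]
        apply Finset.sum_le_sum
        intro k _
        rw [hv, pow_zero, one_mul, one_mul, Real.exp_le_exp]
        have hk : ((k : ℕ) : ℝ) ≤ N := by exact_mod_cast Nat.lt_succ_iff.mp k.2
        have h7 : 2 * ((k : ℕ) : ℝ) * (1 / N) ≤ 2 := by
          rw [mul_one_div, div_le_iff₀ hNpos]; linarith
        linarith
      have h8 := Real.log_le_log (by positivity) h6
      rw [Real.log_mul (by positivity) (Real.exp_pos _).ne', Real.log_exp] at h8
      linarith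
    have e6 : 0 ≤ (1 / (N : ℝ)) * (MM 1 N v (1 / N) / MM 0 N v (1 / N)) := by
      have := MM1_nonneg N v hpos (1 / N)
      positivity
    unfold GG
    linarith
  have hint' : IntegrableOn g (Ioc (1 / (N : ℝ)) 1) := by
    rw [← intervalIntegrable_iff_integrableOn_Ioc_of_le hab]
    exact hgcont.intervalIntegrable _ _
  calc ENNReal.ofReal ((1 / 2) * Real.log (N + 1) - 7 / 2)
      ≤ ENNReal.ofReal (∫ t in (1 / (N : ℝ))..1, g t) := by
        rw [hFTC]; exact ENNReal.ofReal_le_ofReal hval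
    _ = ∫⁻ t in Ioc (1 / (N : ℝ)) 1, ENNReal.ofReal (g t) := by
        rw [intervalIntegral.integral_of_le hab, ofReal_integral_eq_lintegral_ofReal hint']
        rw [Filter.EventuallyLE, ae_restrict_iff' measurableSet_Ioc]
        exact Filter.Eventually.of_forall hgnonneg
    _ ≤ ∫⁻ t in Ioc (1 / (N : ℝ)) 1, ENNReal.ofReal (sdv N v t) := by
        apply setLIntegral_mono' measurableSet_Ioc
        intro t ht
        exact ENNReal.ofReal_le_ofReal (hle t ht)
    _ ≤ XX N v := by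
        unfold XX
        apply lintegral_mono_set
        intro t ht
        exact lt_trans ha ht.1

end Pool.Agent.Work.MP_a7dd25_pr
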