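import Pool.Agent.Work.MP_a7dd25_pr.Lower

open MeasureTheory Set Filter Topology ProbabilityTheory
open scoped NNReal ENNReal

namespace Pool.Agent.Work.MP_a7dd25_pr

/-! ### The first absolute moment -/

lemma K1_eq : K₁ = ENNReal.ofReal (2 / Real.sqrt (2 * Real.pi)) := by
  have hs : 0 < Real.sqrt (2 * Real.pi) := by positivity
  have hd : ∀ x ∈ Ici (0 : ℝ), HasDerivAt (fun t : ℝ => -((Real.sqrt (2 * Real.pi))⁻¹ * Real.exp (-t ^ 2 / 2)))
      (x * ((Real.sqrt (2 * Real.pi))⁻¹ * Real.exp (-x ^ 2 / 2))) x := by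
    intro x _
    have h1 : HasDerivAt (fun t : ℝ => -t ^ 2 / 2) (-x) x := by
      have := ((hasDerivAt_pow 2 x).fun_neg).div_const 2
      refine this.congr_deriv ?_
      ring
    have h2 := (h1.exp.const_mul ((Real.sqrt (2 * Real.pi))⁻¹)).fun_neg
    refine h2.congr_deriv ?_
    ring
  have hlim : Tendsto (fun t : ℝ => -((Real.sqrt (2 * Real.pi))⁻¹ * Real.exp (-t ^ 2 / 2))) atTop (𝓝 (-(((Real.sqrt (2 * Real.pi))⁻¹) * 0))) := by
    apply Tendsto.neg
    apply Tendsto.const_mul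
    have : Tendsto (fun t : ℝ => -t ^ 2 / 2) atTop atBot := by
      have h3 : Tendsto (fun t : ℝ => t ^ 2 / 2) atTop atTop :=
        (tendsto_pow_atTop (by norm_num)).atTop_div_const (by norm_num)
      have h4 := tendsto_neg_atTop_atBot.comp h3
      refine h4.congr fun t => ?_
      simp only [Function.comp]; ring
    exact Real.tendsto_exp_atBot.comp this
  have hint : IntegrableOn (fun x : ℝ => x * ((Real.sqrt (2 * Real.pi))⁻¹ * Real.exp (-x ^ 2 / 2))) (Ioi 0) :=
    integrableOn_Ioi_deriv_of_nonneg' hd (fun x hx => by have : (0 : ℝ) < x := hx; positivity) hlim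
  have hval := integral_Ioi_of_hasDerivAt_of_tendsto' hd hint hlim
  have hhalf : ∫⁻ x in Ioi (0 : ℝ), ENNReal.ofReal (x * ((Real.sqrt (2 * Real.pi))⁻¹ * Real.exp (-x ^ 2 / 2))) =
      ENNReal.ofReal (1 / Real.sqrt (2 * Real.pi)) := by
    rw [← ofReal_integral_eq_lintegral_ofReal hint, hval]
    · simp
    · rw [Filter.EventuallyLE, ae_restrict_iff' measurableSet_Ioi]
      refine Eventually.of_forall fun x hx => ?_
      have : (0 : ℝ) < x := hx
      change 0 ≤ x * ((Real.sqrt (2 * Real.pi))⁻¹ * Real.exp (-x ^ 2 / 2))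
      positivity
  have hK : K₁ = ∫⁻ x : ℝ, ENNReal.ofReal (|x| * ((Real.sqrt (2 * Real.pi))⁻¹ * Real.exp (-x ^ 2 / 2))) := by
    rw [K₁, gaussianReal_of_var_ne_zero 0 one_ne_zero,
      lintegral_withDensity_eq_lintegral_mul _ (measurable_gaussianPDF 0 1) (by fun_prop)]
    refine lintegral_congr fun x => ?_
    simp only [Pi.mul_apply, gaussianPDF, gaussianPDFReal]
    rw [← ENNReal.ofReal_mul (by positivity)]
    congr 1
    simp
    ring
  have hsplit : ∫⁻ x : ℝ, ENNReal.ofReal (|x| * ((Real.sqrt (2 * Real.pi))⁻¹ * Real.exp (-x ^ 2 / 2))) =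
      (∫⁻ x in Ioi 0, ENNReal.ofReal (|x| * ((Real.sqrt (2 * Real.pi))⁻¹ * Real.exp (-x ^ 2 / 2)))) +
      ∫⁻ x in Iic 0, ENNReal.ofReal (|x| * ((Real.sqrt (2 * Real.pi))⁻¹ * Real.exp (-x ^ 2 / 2))) := by
    rw [← lintegral_add_compl _ (measurableSet_Ioi (a := (0 : ℝ))), Set.compl_Ioi]
  have hneg : ∫⁻ x in Iic 0, ENNReal.ofReal (|x| * ((Real.sqrt (2 * Real.pi))⁻¹ * Real.exp (-x ^ 2 / 2))) =
      ∫⁻ x in Ioi 0, ENNReal.ofReal (|x| * ((Real.sqrt (2 * Real.pi))⁻¹ * Real.exp (-x ^ 2 / 2))) := by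
    rw [← lintegral_indicator measurableSet_Iic, ← lintegral_indicator measurableSet_Ioi,
      ← lintegral_neg_eq_self]
    apply lintegral_congr_ae
    have hx0 : ∀ᵐ x : ℝ, x ≠ 0 := by
      have : (volume : Measure ℝ) {0} = 0 := measure_singleton 0
      rw [ae_iff]; simp
    filter_upwards [hx0] with x hx
    by_cases h : 0 < x
    · rw [Set.indicator_of_mem (by simpa using h.le), Set.indicator_of_mem (by simpa using h)]
      simp
    · have hlt : x < 0 := lt_of_le_of_ne (not_lt.mp h) hx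
      rw [Set.indicator_of_notMem (by simpa using hlt), Set.indicator_of_notMem (by simpa using hlt.le)]
  have hpos : ∫⁻ x in Ioi 0, ENNReal.ofReal (|x| * ((Real.sqrt (2 * Real.pi))⁻¹ * Real.exp (-x ^ 2 / 2))) =
      ENNReal.ofReal (1 / Real.sqrt (2 * Real.pi)) := by
    rw [← hhalf]
    apply setLIntegral_congr_fun measurableSet_Ioi
    intro x hx
    have : (0 : ℝ) < x := hx
    simp only [abs_of_pos this]
  rw [hK, hsplit, hneg, hpos, ← ENNReal.ofReal_add (by positivity) (by positivity)]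
  congr 1
  ring

lemma kappa_eq : K₁ * ENNReal.ofReal (1 / Real.sqrt (2 * Real.pi)) = ENNReal.ofReal (1 / Real.pi) := by
  rw [K1_eq, ← ENNReal.ofReal_mul (by positivity)]
  congr 1
  have h : Real.sqrt (2 * Real.pi) * Real.sqrt (2 * Real.pi) = 2 * Real.pi := Real.mul_self_sqrt (by positivity)
  rw [div_mul_div_comm, h, mul_one]
  have := Real.pi_pos
  field_simp

/-! ### Reversal -/

lemma sdv_neg (N : ℕ) (v : Fin (N + 1) → ℝ) (t : ℝ) :
    sdv N v (-t) = sdv N (fun i => v i.rev) t := by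
  have hrev : ∀ j : ℕ, MM j N v (-t) = Real.exp (2 * N * t) *
      ∑ k : Fin (N + 1), ((N : ℝ) - (k : ℕ)) ^ j * (v k.rev * Real.exp (-(2 * (k : ℕ) * t))) := by
    intro j
    unfold MM
    rw [Finset.mul_sum, ← Equiv.sum_comp Fin.revPerm]
    refine Finset.sum_congr rfl fun k _ => ?_
    have hk : (((Fin.revPerm k : Fin (N + 1)) : ℕ) : ℝ) = (N : ℝ) - (k : ℕ) := by
      rw [Fin.revPerm_apply, Fin.val_rev]
      have : (k : ℕ) ≤ N := Nat.lt_succ_iff.mp k.2
      rw [show N + 1 - ((k : ℕ) + 1) = N - (k : ℕ) by omega, Nat.cast_sub this]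
    rw [hk]
    have he : Real.exp (-(2 * ((N : ℝ) - (k : ℕ)) * -t)) = Real.exp (2 * N * t) * Real.exp (-(2 * (k : ℕ) * t)) := by
      rw [← Real.exp_add]; congr 1; ring
    rw [he, Fin.revPerm_apply]
    ring
  set w : Fin (N + 1) → ℝ := fun i => v i.rev with hw
  set E := Real.exp (2 * N * t) with hE
  have hEpos : 0 < E := Real.exp_pos _
  have e0 : MM 0 N v (-t) = E * MM 0 N w t := by
    rw [hrev]; congr 1
  have e1 : MM 1 N v (-t) = E * (N * MM 0 N w t - MM 1 N w t) := by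
    rw [hrev]; congr 1
    unfold MM
    rw [Finset.mul_sum, ← Finset.sum_sub_distrib]
    refine Finset.sum_congr rfl fun k _ => ?_
    ring
  have e2 : MM 2 N v (-t) = E * (N ^ 2 * MM 0 N w t - 2 * N * MM 1 N w t + MM 2 N w t) := by
    rw [hrev]; congr 1
    unfold MM
    rw [Finset.mul_sum, Finset.mul_sum, ← Finset.sum_sub_distrib, ← Finset.sum_add_distrib]
    refine Finset.sum_congr rfl fun k _ => ?_
    ring
  unfold sdv
  rw [e0, e1, e2]
  have h3 : E * MM 0 N w t * (E * (N ^ 2 * MM 0 N w t - 2 * N * MM 1 N w t + MM 2 N w t)) -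
      (E * (N * MM 0 N w t - MM 1 N w t)) ^ 2 = E ^ 2 * (MM 0 N w t * MM 2 N w t - MM 1 N w t ^ 2) := by ring
  rw [h3, Real.sqrt_mul (by positivity), Real.sqrt_sq hEpos.le, mul_div_mul_left _ _ hEpos.ne']

lemma sdv_measurable (N : ℕ) (v : Fin (N + 1) → ℝ) : Measurable (sdv N v) := by
  unfold sdv
  have c0 := (MM_continuous 0 N v).measurable
  have c1 := (MM_continuous 1 N v).measurable
  have c2 := (MM_continuous 2 N v).measurable
  fun_prop

lemma lintegral_sdv (N : ℕ) (v : Fin (N + 1) → ℝ) :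
    ∫⁻ t, ENNReal.ofReal (sdv N v t) = XX N v + XX N (fun i => v i.rev) := by
  have hsplit : ∫⁻ t, ENNReal.ofReal (sdv N v t) =
      (∫⁻ t in Ioi 0, ENNReal.ofReal (sdv N v t)) + ∫⁻ t in Iic 0, ENNReal.ofReal (sdv N v t) := by
    rw [← lintegral_add_compl _ (measurableSet_Ioi (a := (0 : ℝ))), Set.compl_Ioi]
  have hneg : ∫⁻ t in Iic 0, ENNReal.ofReal (sdv N v t) = ∫⁻ t in Ioi 0, ENNReal.ofReal (sdv N v (-t)) := by
    rw [← lintegral_indicator measurableSet_Iic, ← lintegral_indicator measurableSet_Ioi,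
      ← lintegral_neg_eq_self]
    apply lintegral_congr_ae
    have hx0 : ∀ᵐ x : ℝ, x ≠ 0 := by
      have : (volume : Measure ℝ) {0} = 0 := measure_singleton 0
      rw [ae_iff]; simp
    filter_upwards [hx0] with x hx
    by_cases h : 0 < x
    · rw [Set.indicator_of_mem (by simpa using h.le), Set.indicator_of_mem (by simpa using h)]
    · have hlt : x < 0 := lt_of_le_of_ne (not_lt.mp h) hx
      rw [Set.indicator_of_notMem (by simpa using hlt), Set.indicator_of_notMem (by simpa using hlt.le)]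
  rw [hsplit, hneg]
  simp_rw [sdv_neg]
  rfl

/-- expected number of roots for independent centred Gaussian coefficients with variances `v`. -/
lemma gauss_roots (N : ℕ) (hN : 1 ≤ N) (v : Fin (N + 1) → ℝ) (hv : ∀ i, 0 < v i) :
    ∫⁻ ω, (((kac N ω).roots.card : ℕ) : ℝ≥0∞) ∂(Measure.pi fun i => gaussianReal 0 (v i).toNNReal) =
      ENNReal.ofReal (1 / Real.pi) * (2 * (XX N v + XX N (fun i => v i.rev))) := by
  rw [kac_rice N hN (fun i => (v i).toNNReal) (fun i => by simpa using hv i), kappa_eq]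
  have : (fun i => (((v i).toNNReal : ℝ≥0) : ℝ)) = v := by
    ext i; exact Real.coe_toNNReal _ (hv i).le
  rw [this, lintegral_sdv]

/-! ### The mixture law -/

/-- the scale mixture of two centred Gaussians -/
noncomputable def mix (A q h : ℝ) : Measure ℝ :=
  ENNReal.ofReal (1 - h) • gaussianReal 0 (q ^ 2 * A).toNNReal + ENNReal.ofReal h • gaussianReal 0 A.toNNReal

lemma mix_prob (A q h : ℝ) (h0 : 0 ≤ h) (h1 : h ≤ 1) : IsProbabilityMeasure (mix A q h) := by
  constructor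
  simp only [mix, Measure.add_apply, Measure.smul_apply, measure_univ, smul_eq_mul, mul_one]
  rw [← ENNReal.ofReal_add (by linarith) h0]
  simp

lemma pi_mix (N : ℕ) (A q h : ℝ) (h0 : 0 ≤ h) (h1 : h ≤ 1) :
    Measure.pi (fun _ : Fin (N + 1) => mix A q h) =
      ∑ β : Fin (N + 1) → Bool, ENNReal.ofReal (WW (N + 1) h β) •
        Measure.pi (fun i => gaussianReal 0 (prof N A q β i).toNNReal) := by
  have := mix_prob A q h h0 h1
  apply Measure.pi_eq
  intro s hs
  rw [Measure.finsetSum_apply]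
  have e1 : ∀ i : Fin (N + 1), mix A q h (s i) =
      ∑ b ∈ (Finset.univ : Finset Bool), ENNReal.ofReal (wt h b) * gaussianReal 0 ((if b then A else q ^ 2 * A).toNNReal) (s i) := by
    intro i
    simp [mix, wt]
    ring
  simp_rw [e1]
  have h2 := Finset.prod_univ_sum (fun _ : Fin (N + 1) => (Finset.univ : Finset Bool))
    (fun i b => ENNReal.ofReal (wt h b) * gaussianReal 0 ((if b then A else q ^ 2 * A).toNNReal) (s i))
  rw [Fintype.piFinset_univ] at h2
  rw [h2]
  refine Finset.sum_congr rfl fun β _ => ?_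
  rw [Measure.smul_apply, Measure.pi_pi, smul_eq_mul, WW, ENNReal.ofReal_prod_of_nonneg fun i _ => wt_nonneg h h0 h1 _,
    ← Finset.prod_mul_distrib]
  rfl

lemma WW_rev (n : ℕ) (h : ℝ) (β : Fin n → Bool) : WW n h (fun i => β i.rev) = WW n h β := by
  unfold WW
  exact Equiv.prod_comp Fin.revPerm (fun i => wt h (β i))

lemma mix_roots (N : ℕ) (hN : 1 ≤ N) (A q h : ℝ) (hA : 0 < A) (hq : 0 < q) (h0 : 0 ≤ h) (h1 : h ≤ 1) :
    ∫⁻ ω, (((kac N ω).roots.card : ℕ) : ℝ≥0∞) ∂(Measure.pi fun _ : Fin (N + 1) => mix A q h) =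
      ENNReal.ofReal (4 / Real.pi) * ∑ β : Fin (N + 1) → Bool, ENNReal.ofReal (WW (N + 1) h β) * XX N (prof N A q β) := by
  rw [pi_mix N A q h h0 h1, lintegral_finsetSum_measure]
  simp_rw [lintegral_smul_measure, gauss_roots N hN _ (prof_pos N A q hA hq _), smul_eq_mul]
  have hsym : ∑ β : Fin (N + 1) → Bool, ENNReal.ofReal (WW (N + 1) h β) * XX N (fun i => prof N A q β i.rev) =
      ∑ β : Fin (N + 1) → Bool, ENNReal.ofReal (WW (N + 1) h β) * XX N (prof N A q β) := by
    rw [← Equiv.sum_comp (Equiv.arrowCongr (Fin.revPerm (n := N + 1)) (Equiv.refl Bool))]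
    refine Finset.sum_congr rfl fun β _ => ?_
    have e1 : (Equiv.arrowCongr (Fin.revPerm (n := N + 1)) (Equiv.refl Bool)) β = fun i => β i.rev := by
      ext i; simp [Equiv.arrowCongr]
    rw [e1, WW_rev]
    congr 2
    ext i
    simp [prof]
  have e2 : ∀ β : Fin (N + 1) → Bool, ENNReal.ofReal (WW (N + 1) h β) * (ENNReal.ofReal (1 / Real.pi) *
      (2 * (XX N (prof N A q β) + XX N (fun i => prof N A q β i.rev)))) =
      ENNReal.ofReal (1 / Real.pi) * 2 * (ENNReal.ofReal (WW (N + 1) h β) * XX N (prof N A q β)) +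
      ENNReal.ofReal (1 / Real.pi) * 2 * (ENNReal.ofReal (WW (N + 1) h β) * XX N (fun i => prof N A q β i.rev)) := by
    intro β; ring
  simp_rw [e2]
  rw [Finset.sum_add_distrib, ← Finset.mul_sum, ← Finset.mul_sum, hsym]
  have e3 : ENNReal.ofReal (4 / Real.pi) = ENNReal.ofReal (1 / Real.pi) * 4 := by
    have : (4 : ℝ≥0∞) = ENNReal.ofReal 4 := by simp
    rw [this, ← ENNReal.ofReal_mul (by positivity)]
    congr 1; ring
  rw [e3]
  ring

end Pool.Agent.Work.MP_a7dd25_pr
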