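import Pool.Agent.Work.MP_a7dd25_pr.Analysis

open MeasureTheory Set Filter Topology
open scoped NNReal ENNReal

namespace Pool.Agent.Work.MP_a7dd25_pr

lemma lint_exp (j a : ℝ) (hj : 0 ≤ j) :
    ∫⁻ t in Ioi a, ENNReal.ofReal (j * Real.exp (-(j * t))) ≤ ENNReal.ofReal (Real.exp (-(j * a))) := by
  rcases hj.eq_or_lt with h | h
  · subst h; simp
  · have hd : ∀ x ∈ Ici a, HasDerivAt (fun t : ℝ => -Real.exp (-(j * t))) (j * Real.exp (-(j * x))) x := by
      intro x _
      have h1 : HasDerivAt (fun t : ℝ => -(j * t)) (-(j * 1)) x := ((hasDerivAt_id' x).const_mul j).fun_neg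
      have h2 := h1.exp.fun_neg
      refine h2.congr_deriv ?_
      ring
    have hlim : Tendsto (fun t : ℝ => -Real.exp (-(j * t))) atTop (𝓝 (-0)) := by
      apply Tendsto.neg
      have : Tendsto (fun t : ℝ => -(j * t)) atTop atBot := by
        apply tendsto_neg_atTop_atBot.comp
        exact tendsto_id.const_mul_atTop h
      exact Real.tendsto_exp_atBot.comp this
    have hint : IntegrableOn (fun x : ℝ => j * Real.exp (-(j * x))) (Ioi a) :=
      integrableOn_Ioi_deriv_of_nonneg' hd (fun x _ => by positivity) hlim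
    have hval := integral_Ioi_of_hasDerivAt_of_tendsto' hd hint hlim
    rw [← ofReal_integral_eq_lintegral_ofReal hint (Eventually.of_forall fun x => by positivity), hval]
    simp

lemma lint_exp' (j a b : ℝ) (hj : 0 ≤ j) :
    ∫⁻ t in Ioc a b, ENNReal.ofReal (j * Real.exp (j * t)) ≤ ENNReal.ofReal (Real.exp (j * b)) := by
  rcases le_total b a with h | h
  · rw [Ioc_eq_empty (not_lt.mpr h)]; simp
  · have hd : ∀ x ∈ uIcc a b, HasDerivAt (fun t : ℝ => Real.exp (j * t)) (j * Real.exp (j * x)) x := by
      intro x _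
      have h1 : HasDerivAt (fun t : ℝ => j * t) (j * 1) x := (hasDerivAt_id' x).const_mul j
      refine h1.exp.congr_deriv ?_
      ring
    have hcont : Continuous (fun x : ℝ => j * Real.exp (j * x)) := by fun_prop
    have hval := intervalIntegral.integral_eq_sub_of_hasDerivAt hd (hcont.intervalIntegrable a b)
    have hint : IntegrableOn (fun x : ℝ => j * Real.exp (j * x)) (Ioc a b) := by
      rw [← intervalIntegrable_iff_integrableOn_Ioc_of_le h]
      exact hcont.intervalIntegrable a b
    rw [← ofReal_integral_eq_lintegral_ofReal hint (Eventually.of_forall fun x => by positivity),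
      ← intervalIntegral.integral_of_le h, hval]
    apply ENNReal.ofReal_le_ofReal
    have := Real.exp_pos (j * a)
    linarith

lemma geo_le (r : ℝ) (hr0 : 0 ≤ r) (hr1 : r < 1) (N : ℕ) :
    ∑ k ∈ Finset.range N, r ^ k ≤ 1 / (1 - r) := by
  have h1 : 0 < 1 - r := by linarith
  rw [le_div_iff₀ h1, geom_sum_mul_neg]
  have := pow_nonneg hr0 N
  linarith

lemma geo_shift (r : ℝ) (hr0 : 0 ≤ r) (hr1 : r < 1) (T N : ℕ) :
    ∑ k ∈ Finset.range N, (if T ≤ k then r ^ (k - T) else 0) ≤ 1 / (1 - r) := by
  have h : ∑ k ∈ Finset.range N, (if T ≤ k then r ^ (k - T) else 0) = ∑ k ∈ Finset.range (N - T), r ^ k := by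
    induction N with
    | zero => simp
    | succ N ih =>
      rw [Finset.sum_range_succ, ih]
      split_ifs with hT
      · rw [Nat.succ_sub hT, Finset.sum_range_succ]
      · have : N + 1 - T = 0 := by omega
        have h2 : N - T = 0 := by omega
        rw [this, h2]; simp
  rw [h]
  exact geo_le r hr0 hr1 _

lemma one_sub_exp_bound (x : ℝ) (hx : 0 < x) : 1 / (1 - Real.exp (-x)) ≤ 1 + 1 / x := by
  have h1 : Real.exp (-x) ≤ 1 / (1 + x) := by
    rw [Real.exp_neg, inv_eq_one_div]
    apply one_div_le_one_div_of_le (by positivity)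
    have := Real.add_one_le_exp x
    linarith
  have h2 : x / (1 + x) ≤ 1 - Real.exp (-x) := by
    have : x / (1 + x) = 1 - 1 / (1 + x) := by field_simp; ring
    linarith
  have h3 : 0 < x / (1 + x) := by positivity
  calc 1 / (1 - Real.exp (-x)) ≤ 1 / (x / (1 + x)) := one_div_le_one_div_of_le h3 h2
    _ = 1 + 1 / x := by field_simp; ring

/-- two-valued variance profile -/
noncomputable def prof (N : ℕ) (A q : ℝ) (β : Fin (N + 1) → Bool) : Fin (N + 1) → ℝ :=
  fun k => if β k then A else q ^ 2 * A

lemma prof_pos (N : ℕ) (A q : ℝ) (hA : 0 < A) (hq : 0 < q) (β : Fin (N + 1) → Bool) (k : Fin (N + 1)) :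
    0 < prof N A q β k := by
  unfold prof; split_ifs <;> positivity

lemma lint_sum_bound (N : ℕ) (s : Set ℝ) (f : Fin (N + 1) → ℝ → ℝ) (c : Fin (N + 1) → ℝ)
    (hf : ∀ k, Continuous (f k)) (hc : ∀ k, 0 ≤ c k) (hf0 : ∀ k t, 0 ≤ f k t)
    (h : ∀ k, ∫⁻ t in s, ENNReal.ofReal (f k t) ≤ ENNReal.ofReal (c k)) :
    ∫⁻ t in s, ENNReal.ofReal (∑ k, f k t) ≤ ENNReal.ofReal (∑ k, c k) := by
  have h1 : ∀ t, ENNReal.ofReal (∑ k, f k t) = ∑ k, ENNReal.ofReal (f k t) := fun t =>
    ENNReal.ofReal_sum_of_nonneg fun k _ => hf0 k t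
  simp_rw [h1]
  rw [lintegral_finsetSum]
  · rw [ENNReal.ofReal_sum_of_nonneg fun k _ => hc k]
    exact Finset.sum_le_sum fun k _ => h k
  · intro k _
    exact ENNReal.measurable_ofReal.comp (hf k).measurable

/-- coefficient after the first large index -/
noncomputable def tailSum (N : ℕ) (q h : ℝ) (β : Fin (N + 1) → Bool) (T : Fin (N + 1)) : ℝ :=
  ∑ k : Fin (N + 1), if T < k then (if β k then 1 else q) * Real.exp (-((((k : ℕ) : ℝ) - (T : ℕ)) * h)) else 0

lemma part3 (N : ℕ) (A q h : ℝ) (hA : 0 < A) (hq : 0 < q) (hq1 : q < 1)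
    (β : Fin (N + 1) → Bool) (T : Fin (N + 1)) (hT : β T = true) (hT' : ∀ k, k < T → β k = false) :
    ∫⁻ t in Ioi h, ENNReal.ofReal (sdv N (prof N A q β) t) ≤
      ENNReal.ofReal (tailSum N q h β T) + ENNReal.ofReal (3 + 3 * (T : ℕ) / Real.log (1 / q)) := by
  have hpos := prof_pos N A q hA hq β
  have hL : 0 < Real.log (1 / q) := Real.log_pos (by rw [lt_div_iff₀ hq]; linarith)
  set c : Fin (N + 1) → ℝ := fun k => if β k then 1 else q with hcdef
  have hc0 : ∀ k, 0 ≤ c k := fun k => by simp only [hcdef]; split_ifs <;> positivity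
  have hc1 : ∀ k, c k ≤ 1 := fun k => by simp only [hcdef]; split_ifs <;> linarith
  have hsq : ∀ k, Real.sqrt (prof N A q β k / prof N A q β T) = c k := by
    intro k
    simp only [prof, hT, if_true, hcdef]
    split_ifs
    · rw [div_self hA.ne', Real.sqrt_one]
    · rw [mul_div_assoc, div_self hA.ne', mul_one, Real.sqrt_sq hq.le]
  -- the two parts of the expansion around T
  set f1 : Fin (N + 1) → ℝ → ℝ := fun k t =>
    if T < k then c k * ((((k : ℕ) : ℝ) - (T : ℕ)) * Real.exp (-((((k : ℕ) : ℝ) - (T : ℕ)) * t))) else 0 with hf1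
  set f2 : Fin (N + 1) → ℝ → ℝ := fun k t =>
    if k < T then q * ((((T : ℕ) : ℝ) - (k : ℕ)) * Real.exp ((((T : ℕ) : ℝ) - (k : ℕ)) * t)) else 0 with hf2
  have hI : ∀ t, sdv N (prof N A q β) t ≤ (∑ k, f1 k t) + ∑ k, f2 k t := by
    intro t
    refine (sdv_le N _ hpos T t).trans (le_of_eq ?_)
    rw [← Finset.sum_add_distrib]
    refine Finset.sum_congr rfl fun k _ => ?_
    rw [hsq]
    simp only [hf1, hf2]
    rcases lt_trichotomy k T with hk | hk | hk
    · rw [if_neg (not_lt.mpr hk.le), if_pos hk, zero_add]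
      have hk' : ((k : ℕ) : ℝ) < (T : ℕ) := by exact_mod_cast hk
      have hck : c k = q := by simp only [hcdef, hT' k hk]; simp
      rw [abs_of_neg (by linarith), hck]
      have : -((((k : ℕ) : ℝ) - (T : ℕ)) * t) = (((T : ℕ) : ℝ) - (k : ℕ)) * t := by ring
      rw [this]; ring
    · subst hk; simp
    · rw [if_pos hk, if_neg (not_lt.mpr hk.le), add_zero]
      have hk' : ((T : ℕ) : ℝ) < (k : ℕ) := by exact_mod_cast hk
      rw [abs_of_pos (by linarith)]
      ring
  have hf1c : ∀ k, Continuous (f1 k) := by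
    intro k; simp only [hf1]; split_ifs <;> fun_prop
  have hf2c : ∀ k, Continuous (f2 k) := by
    intro k; simp only [hf2]; split_ifs <;> fun_prop
  have hf10 : ∀ k t, 0 ≤ f1 k t := by
    intro k t; simp only [hf1]
    split_ifs with hk
    · have hk' : ((T : ℕ) : ℝ) < (k : ℕ) := by exact_mod_cast hk
      have := hc0 k
      have h3 : 0 ≤ (((k : ℕ) : ℝ) - (T : ℕ)) := by linarith
      positivity
    · exact le_rfl
  have hf20 : ∀ k t, 0 ≤ f2 k t := by
    intro k t; simp only [hf2]
    split_ifs with hk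
    · have hk' : ((k : ℕ) : ℝ) < (T : ℕ) := by exact_mod_cast hk
      have h3 : 0 ≤ (((T : ℕ) : ℝ) - (k : ℕ)) := by linarith
      positivity
    · exact le_rfl
  have hint1 : ∫⁻ t in Ioi h, ENNReal.ofReal (∑ k, f1 k t) ≤ ENNReal.ofReal (tailSum N q h β T) := by
    unfold tailSum
    apply lint_sum_bound N _ f1 _ hf1c
    · intro k; split_ifs <;> positivity
    · exact hf10
    · intro k
      simp only [hf1]
      by_cases hk : T < k
      · simp only [if_pos hk]
        have hk' : ((T : ℕ) : ℝ) < (k : ℕ) := by exact_mod_cast hk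
        have h3 : 0 ≤ (((k : ℕ) : ℝ) - (T : ℕ)) := by linarith
        have := lint_exp (((k : ℕ) : ℝ) - (T : ℕ)) h h3
        rw [ENNReal.ofReal_mul (hc0 k)]
        simp_rw [ENNReal.ofReal_mul (hc0 k)]
        rw [lintegral_const_mul _ (by fun_prop)]
        exact mul_le_mul_right this _
      · simp only [if_neg hk]; simp
  by_cases hT0 : (T : ℕ) = 0
  · -- no small coefficients before T
    have hf2z : ∀ t, ∑ k, f2 k t = 0 := by
      intro t
      apply Finset.sum_eq_zero
      intro k _
      simp only [hf2]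
      rw [if_neg]
      intro hk
      have : (k : ℕ) < (T : ℕ) := hk
      omega
    calc ∫⁻ t in Ioi h, ENNReal.ofReal (sdv N (prof N A q β) t)
        ≤ ∫⁻ t in Ioi h, ENNReal.ofReal (∑ k, f1 k t) := by
          apply lintegral_mono
          intro t
          apply ENNReal.ofReal_le_ofReal
          have := hI t
          rw [hf2z t, add_zero] at this
          exact this
      _ ≤ _ := hint1
      _ ≤ _ := le_self_add
  · have hTpos : (0 : ℝ) < (T : ℕ) := by exact_mod_cast Nat.pos_of_ne_zero hT0
    set ts : ℝ := Real.log (1 / q) / (T : ℕ) with hts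
    have htspos : 0 < ts := by positivity
    have hqexp : q = Real.exp (-((T : ℕ) * ts)) := by
      rw [hts, mul_div_cancel₀ _ hTpos.ne', one_div, Real.log_inv, neg_neg, Real.exp_log hq]
    set r : ℝ := Real.exp (-ts) with hr
    have hr0 : 0 ≤ r := (Real.exp_pos _).le
    have hr1 : r < 1 := by rw [hr, Real.exp_lt_one_iff]; linarith
    have hβ0 : β 0 = false := by
      apply hT'
      exact Nat.pos_of_ne_zero hT0
    -- expansion around 0
    set f3 : Fin (N + 1) → ℝ → ℝ := fun k t =>
      (if k < T then 1 else 1 / q) * (((k : ℕ) : ℝ) * Real.exp (-(((k : ℕ) : ℝ) * t))) with hf3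
    have hII : ∀ t, sdv N (prof N A q β) t ≤ ∑ k, f3 k t := by
      intro t
      refine (sdv_le N _ hpos 0 t).trans ?_
      apply Finset.sum_le_sum
      intro k _
      have h0 : prof N A q β 0 = q ^ 2 * A := by simp [prof, hβ0]
      have hs : Real.sqrt (prof N A q β k / prof N A q β 0) ≤ (if k < T then 1 else 1 / q) := by
        rw [h0]
        by_cases hk : k < T
        · simp only [prof, hT' k hk, if_pos hk]
          simp only [Bool.false_eq_true, if_false]
          rw [div_self (by positivity), Real.sqrt_one]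
        · rw [if_neg hk]
          have : prof N A q β k ≤ A := by
            unfold prof
            split_ifs
            · exact le_rfl
            · have : q ^ 2 ≤ 1 := pow_le_one₀ hq.le hq1.le
              nlinarith
          rw [Real.sqrt_le_left (by positivity), div_le_iff₀ (by positivity), one_div, inv_pow,
            inv_mul_cancel_left₀ (by positivity)]
          exact this
      simp only [Fin.val_zero, Nat.cast_zero, sub_zero, hf3]
      rw [abs_of_nonneg (by positivity)]
      have h3 : 0 ≤ ((k : ℕ) : ℝ) * Real.exp (-(((k : ℕ) : ℝ) * t)) := by positivity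
      calc _ = Real.sqrt (prof N A q β k / prof N A q β 0) * (((k : ℕ) : ℝ) * Real.exp (-(((k : ℕ) : ℝ) * t))) := by ring
        _ ≤ _ := mul_le_mul_of_nonneg_right hs h3
    have hf3c : ∀ k, Continuous (f3 k) := by
      intro k; simp only [hf3]; fun_prop
    have hf30 : ∀ k t, 0 ≤ f3 k t := by
      intro k t; simp only [hf3]
      split_ifs <;> positivity
    set c2 : Fin (N + 1) → ℝ := fun k => if (k : ℕ) < (T : ℕ) then r ^ (k : ℕ) else 0 with hc2
    set c3 : Fin (N + 1) → ℝ := fun k => if (k : ℕ) < (T : ℕ) then r ^ (k : ℕ) else r ^ ((k : ℕ) - (T : ℕ)) with hc3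
    have hint2 : ∫⁻ t in Ioc h ts, ENNReal.ofReal (∑ k, f2 k t) ≤ ENNReal.ofReal (∑ k, c2 k) := by
      apply lint_sum_bound N _ f2 _ hf2c
      · intro k; simp only [hc2]; split_ifs <;> positivity
      · exact hf20
      · intro k
        simp only [hf2, hc2]
        by_cases hk : k < T
        · have hk2 : (k : ℕ) < (T : ℕ) := hk
          simp only [if_pos hk, if_pos hk2]
          have hk' : ((k : ℕ) : ℝ) < (T : ℕ) := by exact_mod_cast hk
          have h3 : 0 ≤ (((T : ℕ) : ℝ) - (k : ℕ)) := by linarith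
          have := lint_exp' (((T : ℕ) : ℝ) - (k : ℕ)) h ts h3
          simp_rw [ENNReal.ofReal_mul hq.le]
          rw [lintegral_const_mul _ (by fun_prop)]
          refine (mul_le_mul_right this _).trans (le_of_eq ?_)
          rw [← ENNReal.ofReal_mul hq.le]
          congr 1
          conv_lhs => rw [hqexp]
          rw [← Real.exp_add, hr, ← Real.exp_nat_mul]
          congr 1; ring
        · have hk2 : ¬ ((k : ℕ) < (T : ℕ)) := hk
          simp only [if_neg hk, if_neg hk2]; simp
    have hint3 : ∫⁻ t in Ioi ts, ENNReal.ofReal (∑ k, f3 k t) ≤ ENNReal.ofReal (∑ k, c3 k) := by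
      apply lint_sum_bound N _ f3 _ hf3c
      · intro k; simp only [hc3]; split_ifs <;> positivity
      · exact hf30
      · intro k
        have h4 := lint_exp ((k : ℕ) : ℝ) ts (by positivity)
        by_cases hk : k < T
        · have hk2 : (k : ℕ) < (T : ℕ) := hk
          simp only [hf3, hc3, if_pos hk, if_pos hk2, one_mul]
          refine h4.trans (le_of_eq ?_)
          rw [hr, ← Real.exp_nat_mul]
          congr 2; ring
        · have hk2 : ¬ ((k : ℕ) < (T : ℕ)) := hk
          have hq' : 0 ≤ 1 / q := by positivity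
          simp only [hf3, hc3, if_neg hk, if_neg hk2]
          simp_rw [ENNReal.ofReal_mul hq']
          rw [lintegral_const_mul _ (by fun_prop)]
          refine (mul_le_mul_right h4 _).trans (le_of_eq ?_)
          rw [← ENNReal.ofReal_mul hq']
          congr 1
          conv_lhs => rw [hqexp]
          rw [one_div, ← Real.exp_neg, ← Real.exp_add, hr, ← Real.exp_nat_mul]
          congr 1
          rw [Nat.cast_sub (not_lt.mp hk2)]
          ring
    have hsum : ∑ k, c2 k + ∑ k, c3 k ≤ 3 + 3 * (T : ℕ) / Real.log (1 / q) := by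
      have g1 := geo_le r hr0 hr1 (N + 1)
      have g2 := geo_shift r hr0 hr1 (T : ℕ) (N + 1)
      have e1 : ∑ k, c2 k ≤ ∑ k ∈ Finset.range (N + 1), r ^ k := by
        rw [Finset.sum_range]
        apply Finset.sum_le_sum
        intro k _
        simp only [hc2]; split_ifs
        · exact le_rfl
        · positivity
      have e2 : ∑ k, c3 k ≤ ∑ k ∈ Finset.range (N + 1), r ^ k +
          ∑ k ∈ Finset.range (N + 1), (if (T : ℕ) ≤ k then r ^ (k - (T : ℕ)) else 0) := by
        rw [Finset.sum_range, Finset.sum_range, ← Finset.sum_add_distrib]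
        apply Finset.sum_le_sum
        intro k _
        simp only [hc3]
        by_cases hk : (k : ℕ) < (T : ℕ)
        · rw [if_pos hk, if_neg (not_le.mpr hk), add_zero]
        · rw [if_neg hk, if_pos (not_lt.mp hk)]
          have := pow_nonneg hr0 (k : ℕ)
          linarith
      have g3 := one_sub_exp_bound ts htspos
      have e3 : 1 / ts = (T : ℕ) / Real.log (1 / q) := by rw [hts]; field_simp
      have e4 : 3 * ((T : ℕ) : ℝ) / Real.log (1 / q) = 3 * ((T : ℕ) / Real.log (1 / q)) := by ring
      rw [e4, ← e3]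
      linarith
    have hsplit : ∫⁻ t in Ioi h, ENNReal.ofReal (sdv N (prof N A q β) t) ≤
        (∫⁻ t in Ioc h ts, ENNReal.ofReal (sdv N (prof N A q β) t)) +
        ∫⁻ t in Ioi ts, ENNReal.ofReal (sdv N (prof N A q β) t) := by
      rw [← lintegral_union measurableSet_Ioi]
      · apply lintegral_mono_set
        intro t ht
        by_cases h' : t ≤ ts
        · exact Or.inl ⟨ht, h'⟩
        · exact Or.inr (not_le.mp h')
      · rw [Set.disjoint_left]
        intro t ht ht'
        exact absurd ht.2 (not_le.mpr ht')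
    have hfirst : ∫⁻ t in Ioc h ts, ENNReal.ofReal (sdv N (prof N A q β) t) ≤
        ENNReal.ofReal (tailSum N q h β T) + ENNReal.ofReal (∑ k, c2 k) := by
      calc ∫⁻ t in Ioc h ts, ENNReal.ofReal (sdv N (prof N A q β) t)
          ≤ ∫⁻ t in Ioc h ts, (ENNReal.ofReal (∑ k, f1 k t) + ENNReal.ofReal (∑ k, f2 k t)) := by
            apply lintegral_mono
            intro t
            exact (ENNReal.ofReal_le_ofReal (hI t)).trans ENNReal.ofReal_add_le
        _ = (∫⁻ t in Ioc h ts, ENNReal.ofReal (∑ k, f1 k t)) + ∫⁻ t in Ioc h ts, ENNReal.ofReal (∑ k, f2 k t) := by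
            apply lintegral_add_left
            apply ENNReal.measurable_ofReal.comp
            apply Finset.measurable_sum
            intro k _
            exact (hf1c k).measurable
        _ ≤ _ := by
            apply add_le_add _ hint2
            exact (lintegral_mono_set Ioc_subset_Ioi_self).trans hint1
    calc _ ≤ _ := hsplit
      _ ≤ (ENNReal.ofReal (tailSum N q h β T) + ENNReal.ofReal (∑ k, c2 k)) + ENNReal.ofReal (∑ k, c3 k) := by
          apply add_le_add hfirst
          refine le_trans ?_ hint3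
          apply lintegral_mono
          intro t
          exact ENNReal.ofReal_le_ofReal (hII t)
      _ = ENNReal.ofReal (tailSum N q h β T) + ENNReal.ofReal (∑ k, c2 k + ∑ k, c3 k) := by
          rw [add_assoc, ← ENNReal.ofReal_add]
          · apply Finset.sum_nonneg; intro k _; simp only [hc2]; split_ifs <;> positivity
          · apply Finset.sum_nonneg; intro k _; simp only [hc3]; split_ifs <;> positivity
      _ ≤ _ := add_le_add le_rfl (ENNReal.ofReal_le_ofReal hsum)

end Pool.Agent.Work.MP_a7dd25_pr
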