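import Pool.Agent.Work.MP_a7dd25_pr.Part3
import Pool.Agent.Work.MP_a7dd25_pr.Bits

open MeasureTheory Set Filter Topology
open scoped NNReal ENNReal

namespace Pool.Agent.Work.MP_a7dd25_pr

/-- half-line integral of the standard deviation -/
noncomputable def XX (N : ℕ) (v : Fin (N + 1) → ℝ) : ℝ≥0∞ := ∫⁻ t in Ioi 0, ENNReal.ofReal (sdv N v t)

lemma log_MM0_le (N : ℕ) (v : Fin (N + 1) → ℝ) (hv : ∀ i, 0 < v i) (t : ℝ) (ht : 0 ≤ t) :
    Real.log (MM 0 N v t) ≤ (∑ k, v k) / (N + 1) - 1 + Real.log (N + 1) := by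
  have h0 := MM0_pos N v hv t
  have h1 : MM 0 N v t ≤ ∑ k, v k := by
    unfold MM
    apply Finset.sum_le_sum
    intro k _
    rw [pow_zero, one_mul]
    have h2 : Real.exp (-(2 * (k : ℕ) * t)) ≤ 1 := by
      rw [Real.exp_le_one_iff]
      have : 0 ≤ 2 * ((k : ℕ) : ℝ) * t := by positivity
      linarith
    have := hv k
    nlinarith
  have hs : 0 < ∑ k, v k := lt_of_lt_of_le h0 h1
  have hN : (0 : ℝ) < (N : ℝ) + 1 := by positivity
  calc Real.log (MM 0 N v t) ≤ Real.log (∑ k, v k) := Real.log_le_log h0 h1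
    _ = Real.log ((∑ k, v k) / (N + 1)) + Real.log (N + 1) := by
        rw [Real.log_div hs.ne' hN.ne']; ring
    _ ≤ _ := by
        have := Real.log_le_sub_one_of_pos (div_pos hs hN)
        linarith

lemma X_bound (N : ℕ) (hN : 1 ≤ N) (A q h : ℝ) (hA : 0 < A) (hq : 0 < q) (hq1 : q < 1)
    (hh : 0 < h) (hNh : 1 / (N : ℝ) ≤ h)
    (β : Fin (N + 1) → Bool) (T : Fin (N + 1)) (hT : β T = true) (hT' : ∀ k, k < T → β k = false) :
    0 ≤ 1 + (1 / 2 + (1 / 4) * ((∑ k, prof N A q β k) / (N + 1) - 1 + Real.log (N + 1) - Real.log A + 2 * (T : ℕ) * h) +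
        (1 / 4) * (Real.log h + Real.log N)) + tailSum N q h β T + (3 + 3 * (T : ℕ) / Real.log (1 / q)) ∧
    XX N (prof N A q β) ≤ ENNReal.ofReal
      (1 + (1 / 2 + (1 / 4) * ((∑ k, prof N A q β k) / (N + 1) - 1 + Real.log (N + 1) - Real.log A + 2 * (T : ℕ) * h) +
        (1 / 4) * (Real.log h + Real.log N)) + tailSum N q h β T + (3 + 3 * (T : ℕ) / Real.log (1 / q))) := by
  have hpos := prof_pos N A q hA hq β
  have hNpos : (0 : ℝ) < N := by positivity
  have ha : (0 : ℝ) < 1 / N := by positivity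
  set v := prof N A q β with hv
  obtain ⟨hp0, hp2⟩ := part2 N v hpos (1 / N) h ha hNh
  have hp1 := part1 N hN v hpos
  have hp3 := part3 N A q h hA hq hq1 β T hT hT'
  rw [← hv] at hp3
  have hL : 0 < Real.log (1 / q) := Real.log_pos (by rw [lt_div_iff₀ hq]; linarith)
  have htail : 0 ≤ tailSum N q h β T := by
    unfold tailSum
    apply Finset.sum_nonneg; intro k _
    split_ifs <;> positivity
  have hthird : 0 ≤ 3 + 3 * ((T : ℕ) : ℝ) / Real.log (1 / q) := by positivity
  -- bound of part 2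
  have hG : GG N v h - GG N v (1 / N) + (1 / 4) * (Real.log h - Real.log (1 / N)) ≤
      1 / 2 + (1 / 4) * ((∑ k, v k) / (N + 1) - 1 + Real.log (N + 1) - Real.log A + 2 * (T : ℕ) * h) +
        (1 / 4) * (Real.log h + Real.log N) := by
    have h0h := MM0_pos N v hpos h
    have h0a := MM0_pos N v hpos (1 / N)
    have e1 : -(1 / 2) * h * (MM 1 N v h / MM 0 N v h) ≤ 0 := by
      have := div_nonneg (MM1_nonneg N v hpos h) h0h.le
      nlinarith
    have e2 : (1 / 2) * (1 / (N : ℝ)) * (MM 1 N v (1 / N) / MM 0 N v (1 / N)) ≤ 1 / 2 := by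
      have h3 : MM 1 N v (1 / N) / MM 0 N v (1 / N) ≤ N := by
        rw [div_le_iff₀ h0a]; exact MM1_le N v hpos _
      calc (1 / 2) * (1 / (N : ℝ)) * (MM 1 N v (1 / N) / MM 0 N v (1 / N)) ≤ (1 / 2) * (1 / (N : ℝ)) * N := by
            apply mul_le_mul_of_nonneg_left h3; positivity
        _ = 1 / 2 := by field_simp
    have e3 := log_MM0_le N v hpos (1 / N) ha.le
    have e4 : Real.log A - 2 * (T : ℕ) * h ≤ Real.log (MM 0 N v h) := by
      have h5 : A * Real.exp (-(2 * (T : ℕ) * h)) ≤ MM 0 N v h := by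
        unfold MM
        simp only [pow_zero, one_mul]
        have h6 := Finset.single_le_sum (f := fun k : Fin (N + 1) => v k * Real.exp (-(2 * (k : ℕ) * h)))
          (fun i _ => (mul_pos (hpos i) (Real.exp_pos _)).le) (Finset.mem_univ T)
        have h7 : v T = A := by simp [hv, prof, hT]
        simp only [h7] at h6
        exact h6
      have h8 := Real.log_le_log (by positivity) h5
      rw [Real.log_mul hA.ne' (Real.exp_pos _).ne', Real.log_exp] at h8
      linarith
    have e5 : Real.log (1 / (N : ℝ)) = - Real.log N := by rw [one_div, Real.log_inv]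
    unfold GG
    rw [e5]
    linarith
  have hsplit : XX N v ≤ (∫⁻ t in Ioc 0 (1 / (N : ℝ)), ENNReal.ofReal (sdv N v t)) +
      ((∫⁻ t in Ioc (1 / (N : ℝ)) h, ENNReal.ofReal (sdv N v t)) + ∫⁻ t in Ioi h, ENNReal.ofReal (sdv N v t)) := by
    unfold XX
    rw [← lintegral_union measurableSet_Ioi, Ioc_union_Ioi_eq_Ioi hNh, ← lintegral_union measurableSet_Ioi,
      Ioc_union_Ioi_eq_Ioi ha.le]
    · rw [Set.disjoint_left]; intro t ht ht'; exact absurd ht.2 (not_le.mpr ht')
    · rw [Set.disjoint_left]; intro t ht ht'; exact absurd ht.2 (not_le.mpr ht')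
  have hp2' := hp2.trans (ENNReal.ofReal_le_ofReal hG)
  have hP2nonneg := hp0.trans hG
  constructor
  · linarith
  · refine hsplit.trans ?_
    refine (add_le_add hp1 (add_le_add hp2' hp3)).trans (le_of_eq ?_)
    rw [← ENNReal.ofReal_one, ← ENNReal.ofReal_add htail hthird, ← ENNReal.ofReal_add hP2nonneg (by positivity),
      ← ENNReal.ofReal_add (by norm_num) (by positivity)]
    congr 1
    ring

lemma X_zero (N : ℕ) (hN : 1 ≤ N) (A q : ℝ) (hA : 0 < A) (hq : 0 < q)
    (β : Fin (N + 1) → Bool) (hβ : ∀ k, β k = false) :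
    XX N (prof N A q β) ≤ ENNReal.ofReal (N + 2) := by
  have hpos := prof_pos N A q hA hq β
  have hNpos : (0 : ℝ) < N := by positivity
  have ha : (0 : ℝ) < 1 / N := by positivity
  set v := prof N A q β with hv
  have hp1 := part1 N hN v hpos
  have hvk : ∀ k, v k = q ^ 2 * A := fun k => by simp [hv, prof, hβ k]
  set f3 : Fin (N + 1) → ℝ → ℝ := fun k t => (((k : ℕ) : ℝ) * Real.exp (-(((k : ℕ) : ℝ) * t))) with hf3
  have hII : ∀ t, sdv N v t ≤ ∑ k, f3 k t := by
    intro t
    refine (sdv_le N _ hpos 0 t).trans (le_of_eq ?_)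
    refine Finset.sum_congr rfl fun k _ => ?_
    rw [hvk, hvk, div_self (by positivity)]
    simp [hf3]
  have hint : ∫⁻ t in Ioi (1 / (N : ℝ)), ENNReal.ofReal (∑ k, f3 k t) ≤ ENNReal.ofReal (∑ k : Fin (N + 1), 1) := by
    apply lint_sum_bound N _ f3 (fun _ => 1)
    · intro k; simp only [hf3]; fun_prop
    · intro k; norm_num
    · intro k t; simp only [hf3]; positivity
    · intro k
      refine (lint_exp _ _ (by positivity)).trans ?_
      apply ENNReal.ofReal_le_ofReal
      rw [Real.exp_le_one_iff]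
      have : 0 ≤ ((k : ℕ) : ℝ) * (1 / N) := by positivity
      linarith
  unfold XX
  rw [← Ioc_union_Ioi_eq_Ioi ha.le, lintegral_union measurableSet_Ioi]
  · have h2 : ∫⁻ t in Ioi (1 / (N : ℝ)), ENNReal.ofReal (sdv N v t) ≤ ENNReal.ofReal (N + 1) := by
      refine (lintegral_mono fun t => ENNReal.ofReal_le_ofReal (hII t)).trans (hint.trans (le_of_eq ?_))
      simp
    refine (add_le_add hp1 h2).trans (le_of_eq ?_)
    rw [← ENNReal.ofReal_one, ← ENNReal.ofReal_add (by norm_num) (by positivity)]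
    congr 1; ring
  · rw [Set.disjoint_left]; intro t ht ht'; exact absurd ht.2 (not_le.mpr ht')

/-- constant part of the bound -/
noncomputable def c0 (N : ℕ) (A h : ℝ) : ℝ :=
  1 + 1 / 2 + (1 / 4) * (-1 + Real.log (N + 1) - Real.log A) + (1 / 4) * (Real.log h + Real.log N) + 3

open Classical in
/-- dominating functional -/
noncomputable def DD (N : ℕ) (A q h : ℝ) (β : Fin (N + 1) → Bool) : ℝ :=
  c0 N A h + (1 / 4) * ((∑ k, prof N A q β k) / (N + 1)) + (h / 2 + 3 / Real.log (1 / q)) * Tn (N + 1) β +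
    SS (N + 1) q h β + if (∀ k, β k = false) then (N + 2 + |c0 N A h|) else 0

lemma X_le_DD (N : ℕ) (hN : 1 ≤ N) (A q h : ℝ) (hA : 0 < A) (hq : 0 < q) (hq1 : q < 1)
    (hh : 0 < h) (hNh : 1 / (N : ℝ) ≤ h) (β : Fin (N + 1) → Bool) :
    0 ≤ DD N A q h β ∧ XX N (prof N A q β) ≤ ENNReal.ofReal (DD N A q h β) := by
  classical
  have hL : 0 < Real.log (1 / q) := Real.log_pos (by rw [lt_div_iff₀ hq]; linarith)
  by_cases hβ : ∀ k, β k = false
  · have hsum : 0 ≤ ∑ k, prof N A q β k := Finset.sum_nonneg fun k _ => (prof_pos N A q hA hq β k).le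
    have hD : (N : ℝ) + 2 ≤ DD N A q h β := by
      unfold DD
      rw [if_pos hβ]
      have h1 := Tn_nonneg (N + 1) β
      have h2 := SS_nonneg (N + 1) q h hq.le β
      have h3 := neg_abs_le (c0 N A h)
      have h4 : 0 ≤ (1 / 4) * ((∑ k, prof N A q β k) / ((N : ℝ) + 1)) := by positivity
      have h5 : 0 ≤ (h / 2 + 3 / Real.log (1 / q)) * Tn (N + 1) β := by positivity
      linarith
    constructor
    · have : (0 : ℝ) ≤ N := by positivity
      linarith
    · exact (X_zero N hN A q hA hq β hβ).trans (ENNReal.ofReal_le_ofReal hD)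
  · push Not at hβ
    obtain ⟨T, hT, hT'⟩ : ∃ T, β T = true ∧ ∀ k, k < T → β k = false := by
      have hne : (Finset.univ.filter (fun k => β k = true)).Nonempty := by
        obtain ⟨k, hk⟩ := hβ
        exact ⟨k, by simpa using hk⟩
      refine ⟨(Finset.univ.filter (fun k => β k = true)).min' hne, ?_, ?_⟩
      · have := Finset.min'_mem _ hne
        simpa using this
      · intro k hk
        by_contra hc
        have hk' : k ∈ Finset.univ.filter (fun k => β k = true) := by simpa using hc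
        exact absurd (Finset.min'_le _ k hk') (not_le.mpr hk)
    obtain ⟨hb0, hb⟩ := X_bound N hN A q h hA hq hq1 hh hNh β T hT hT'
    have hle : 1 + (1 / 2 + (1 / 4) * ((∑ k, prof N A q β k) / (N + 1) - 1 + Real.log (N + 1) - Real.log A + 2 * (T : ℕ) * h) +
        (1 / 4) * (Real.log h + Real.log N)) + tailSum N q h β T + (3 + 3 * (T : ℕ) / Real.log (1 / q)) ≤
        DD N A q h β := by
      unfold DD c0
      rw [Tn_eq (N + 1) β T hT hT', if_neg (by push Not; exact ⟨T, by simp [hT]⟩)]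
      have h1 : tailSum N q h β T ≤ SS (N + 1) q h β := SS_ge (N + 1) q h hq.le β T hT hT'
      have h2 : 3 * ((T : ℕ) : ℝ) / Real.log (1 / q) = 3 / Real.log (1 / q) * (T : ℕ) := by ring
      rw [h2]
      nlinarith
    exact ⟨hb0.trans hle, hb.trans (ENNReal.ofReal_le_ofReal hle)⟩

lemma expect_DD (N : ℕ) (A q h : ℝ) (hq : 0 < q) (hq1 : q < 1)
    (hh : 0 < h) (hh1 : h ≤ 1) (hqh : q ≤ h) (hnorm : A * (h + (1 - h) * q ^ 2) = 1) :
    ∑ β : Fin (N + 1) → Bool, WW (N + 1) h β * DD N A q h β ≤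
      c0 N A h + 1 / 4 + (h / 2 + 3 / Real.log (1 / q)) * (1 / h) + 2 + (1 - h) ^ (N + 1) * (N + 2 + |c0 N A h|) := by
  classical
  have hL : 0 < Real.log (1 / q) := Real.log_pos (by rw [lt_div_iff₀ hq]; linarith)
  have hsplit : ∑ β : Fin (N + 1) → Bool, WW (N + 1) h β * DD N A q h β =
      c0 N A h * ∑ β : Fin (N + 1) → Bool, WW (N + 1) h β +
      (1 / 4) * ((∑ β : Fin (N + 1) → Bool, WW (N + 1) h β * ∑ k, prof N A q β k) / (N + 1)) +
      (h / 2 + 3 / Real.log (1 / q)) * ∑ β : Fin (N + 1) → Bool, WW (N + 1) h β * Tn (N + 1) β +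
      ∑ β : Fin (N + 1) → Bool, WW (N + 1) h β * SS (N + 1) q h β +
      ∑ β : Fin (N + 1) → Bool, WW (N + 1) h β * (if (∀ k, β k = false) then (N + 2 + |c0 N A h|) else 0) := by
    rw [Finset.sum_div, Finset.mul_sum, Finset.mul_sum, Finset.mul_sum, ← Finset.sum_add_distrib, ← Finset.sum_add_distrib,
      ← Finset.sum_add_distrib, ← Finset.sum_add_distrib]
    refine Finset.sum_congr rfl fun β _ => ?_
    unfold DD
    ring
  have h1 : ∑ β : Fin (N + 1) → Bool, WW (N + 1) h β * ∑ k, prof N A q β k = (N : ℝ) + 1 := by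
    simp_rw [Finset.mul_sum]
    rw [Finset.sum_comm]
    have h2 : ∀ k : Fin (N + 1), ∑ β : Fin (N + 1) → Bool, WW (N + 1) h β * prof N A q β k = 1 := by
      intro k
      have := expect_single (N + 1) h k (fun b => if b then A else q ^ 2 * A)
      simp only [if_true, Bool.false_eq_true, if_false] at this
      unfold prof
      rw [this]
      linarith
    simp_rw [h2]
    simp
  have h3 := expect_Tn (N + 1) h hh hh1
  have h4 := expect_SS (N + 1) h q hh hh1 hq.le hqh
  have h5 : ∑ β : Fin (N + 1) → Bool, WW (N + 1) h β * (if (∀ k, β k = false) then ((N : ℝ) + 2 + |c0 N A h|) else 0) =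
      (1 - h) ^ (N + 1) * (N + 2 + |c0 N A h|) := by
    rw [Finset.sum_eq_single (fun _ => false)]
    · simp [WW, wt]
    · intro β _ hβ
      rw [if_neg, mul_zero]
      intro hc
      exact hβ (funext hc)
    · intro h; exact absurd (Finset.mem_univ _) h
  rw [hsplit, WW_sum, h1, h5]
  have h6 : ((N : ℝ) + 1) / (N + 1) = 1 := div_self (by positivity)
  rw [h6]
  have h7 : (h / 2 + 3 / Real.log (1 / q)) * ∑ β : Fin (N + 1) → Bool, WW (N + 1) h β * Tn (N + 1) β ≤
      (h / 2 + 3 / Real.log (1 / q)) * (1 / h) := mul_le_mul_of_nonneg_left h3 (by positivity)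
  linarith

end Pool.Agent.Work.MP_a7dd25_pr
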